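import Mathlib
import Pool.Agent.Work.MP_46935e_lc.RO.Defs

/-!
# Oracles of low degree over a prime field
-/

set_option autoImplicit false

namespace Pool.Agent.LD

open Pool.Agent.RO N68a2faeb

/-- The bit `b` as an element of the field with `p` elements. -/
def bit01 (p : ℕ) (b : Bool) : ZMod p := if b = true then 1 else 0

/-- The operator `T` on oracles has low degree over the field with `p` elements: there is a
polynomial `d` such that for every query `q` the answer `T A q` is, as a function of the oracle
`A`, given by a polynomial over this field of total degree at most `d |q|` in the bits `A w` with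
`|w| ≤ |q|`. -/
def IsLowDegree (p : ℕ) (T : (List Bool → Bool) → List Bool → Bool) : Prop :=
  ∃ d : Polynomial ℕ, ∀ q : List Bool, ∃ P : MvPolynomial (List Bool) (ZMod p),
    P.totalDegree ≤ d.eval q.length ∧ (∀ w ∈ P.vars, w.length ≤ q.length) ∧
    ∀ A : List Bool → Bool, MvPolynomial.eval (fun w => bit01 p (A w)) P = bit01 p (T A q)

/-- The affine (multilinear) extension over the ring `K` of the oracle `A` on the strings of
length `n`: the polynomial of degree at most one in each of the `n` variables which takes the
value `A b` at every `0`-`1` vector `b`. -/
noncomputable def affExt {K : Type} [CommRing K] (A : List Bool → Bool) (n : ℕ) (x : Fin n → K) : K :=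
  ∑ b : Fin n → Bool, (if A (List.ofFn b) = true then 1 else 0) *
    ∏ i, (if b i = true then x i else 1 - x i)

/-- Affine oracles: on the query `q` the answer is the bit `π q` of the value at the point `x q` of
the affine extension of `A` on the strings of length `n q` over the field with `p ^ k q`
elements. -/
noncomputable def affOracle (p : ℕ) [Fact p.Prime] (k n : List Bool → ℕ)
    (x : (q : List Bool) → Fin (n q) → GaloisField p (k q))
    (π : (q : List Bool) → GaloisField p (k q) → Bool) (A : List Bool → Bool) (q : List Bool) :
    Bool :=
  π q (affExt A (n q) (x q))

end Pool.Agent.LD
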