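import Mathlib
import Pool.Agent.Work.MP_46935e_lc.LD.Defs

/-!
# Affine oracles have low degree
-/

set_option autoImplicit false

open MvPolynomial

noncomputable section

namespace Pool.Agent.LD

/-- Boolean functions of linear forms over a finite field have low degree. -/
theorem exists_linear {p : ℕ} [hp : Fact p.Prime] {K : Type} [Field K] [Finite K]
    [Algebra (ZMod p) K] [Module.Finite (ZMod p) K] {ι : Type} [Fintype ι] (e : ι → List Bool)
    (c : ι → K) (π : K → Bool) :
    ∃ P : MvPolynomial (List Bool) (ZMod p),
      P.totalDegree ≤ Module.finrank (ZMod p) K * (p - 1) ∧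
      (∀ w ∈ P.vars, ∃ i, w = e i) ∧
      ∀ A : List Bool → Bool, eval (fun w => bit01 p (A w)) P =
        bit01 p (π (∑ i, (if A (e i) = true then 1 else 0) * c i)) := by
  classical
  have : Fintype K := Fintype.ofFinite K
  set β := Module.finBasis (ZMod p) K with hβ
  set m := Module.finrank (ZMod p) K with hm
  have hp1 : p - 1 ≠ 0 := by have := hp.out.two_le; omega
  set L : Fin m → MvPolynomial (List Bool) (ZMod p) := fun j =>
    ∑ i, C (β.repr (c i) j) * X (e i) with hL
  set I : K → MvPolynomial (List Bool) (ZMod p) := fun u =>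
    ∏ j, (1 - (L j - C (β.repr u j)) ^ (p - 1)) with hI
  have hLd : ∀ j, (L j).totalDegree ≤ 1 := by
    intro j
    refine totalDegree_finsetSum_le fun i _ => ?_
    refine (totalDegree_mul _ _).trans ?_
    rw [totalDegree_C, totalDegree_X]
  have hId : ∀ u, (I u).totalDegree ≤ m * (p - 1) := by
    intro u
    refine (totalDegree_finsetProd _ _).trans ?_
    calc ∑ j : Fin m, (1 - (L j - C (β.repr u j)) ^ (p - 1)).totalDegree
        ≤ ∑ _j : Fin m, (p - 1) := by
          refine Finset.sum_le_sum fun j _ => ?_
          refine (totalDegree_sub _ _).trans (max_le ?_ ?_)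
          · rw [totalDegree_one]
            exact Nat.zero_le _
          · refine (totalDegree_pow _ _).trans ?_
            have h1 : (L j - C (β.repr u j)).totalDegree ≤ 1 :=
              (totalDegree_sub_C_le _ _).trans (hLd j)
            calc (p - 1) * (L j - C (β.repr u j)).totalDegree ≤ (p - 1) * 1 :=
                  Nat.mul_le_mul_left _ h1
              _ = p - 1 := mul_one _
      _ = m * (p - 1) := by rw [Finset.sum_const, Finset.card_univ, Fintype.card_fin,
            smul_eq_mul]
  have hLs : ∀ j, L j ∈ supported (ZMod p) (Set.range e) := by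
    intro j
    refine sum_mem fun i _ => mul_mem ?_ ?_
    · exact (supported (ZMod p) (Set.range e)).algebraMap_mem _
    · exact X_mem_supported.2 ⟨i, rfl⟩
  have hIs : ∀ u, I u ∈ supported (ZMod p) (Set.range e) := by
    intro u
    refine prod_mem fun j _ => sub_mem (one_mem _) (pow_mem (sub_mem (hLs j) ?_) _)
    exact (supported (ZMod p) (Set.range e)).algebraMap_mem _
  have hLe : ∀ (A : List Bool → Bool) j, eval (fun w => bit01 p (A w)) (L j) =
      β.repr (∑ i, (if A (e i) = true then 1 else 0) * c i) j := by
    intro A j
    rw [hL]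
    simp only
    rw [map_sum, map_sum, Finsupp.finsetSum_apply]
    refine Finset.sum_congr rfl fun i _ => ?_
    rw [map_mul, eval_C, eval_X]
    unfold bit01
    split_ifs
    · rw [one_mul, mul_one]
    · rw [zero_mul, mul_zero, map_zero]
      rfl
  have hIe : ∀ (A : List Bool → Bool) u, eval (fun w => bit01 p (A w)) (I u) =
      if (∑ i, (if A (e i) = true then 1 else 0) * c i) = u then 1 else 0 := by
    intro A u
    rw [hI]
    simp only
    rw [map_prod]
    have h1 : ∀ j, eval (fun w => bit01 p (A w)) (1 - (L j - C (β.repr u j)) ^ (p - 1)) =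
        if β.repr (∑ i, (if A (e i) = true then 1 else 0) * c i) j = β.repr u j then 1 else 0 := by
      intro j
      rw [map_sub, map_pow, map_sub, eval_C, hLe, map_one]
      split_ifs with h
      · rw [h, sub_self, zero_pow hp1, sub_zero]
      · rw [ZMod.pow_card_sub_one_eq_one (sub_ne_zero.2 h), sub_self]
    rw [Finset.prod_congr rfl fun j _ => h1 j]
    split_ifs with h
    · rw [h]
      simp
    · obtain ⟨j, hj⟩ : ∃ j, β.repr (∑ i, (if A (e i) = true then 1 else 0) * c i) j ≠
          β.repr u j := by
        by_contra hc
        push Not at hc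
        exact h (β.repr.injective (Finsupp.ext hc))
      exact Finset.prod_eq_zero (Finset.mem_univ j) (if_neg hj)
  refine ⟨∑ u : K, if π u = true then I u else 0, ?_, ?_, fun A => ?_⟩
  · refine totalDegree_finsetSum_le fun u _ => ?_
    split_ifs
    · exact hId u
    · rw [totalDegree_zero]
      exact Nat.zero_le _
  · have h1 : (∑ u : K, if π u = true then I u else 0) ∈ supported (ZMod p) (Set.range e) := by
      refine sum_mem fun u _ => ?_
      split_ifs
      · exact hIs u
      · exact zero_mem _
    intro w hw
    obtain ⟨i, hi⟩ := (mem_supported.1 h1) hw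
    exact ⟨i, hi.symm⟩
  · rw [map_sum]
    set v := ∑ i, (if A (e i) = true then 1 else 0) * c i with hv
    have h1 : ∀ u : K, eval (fun w => bit01 p (A w)) (if π u = true then I u else 0) =
        if u = v then bit01 p (π u) else 0 := by
      intro u
      unfold bit01
      split_ifs with h2 h3 h3
      · rw [h3, show eval (fun w => if A w = true then (1 : ZMod p) else 0) (I v) =
          eval (fun w => bit01 p (A w)) (I v) from rfl, hIe, if_pos rfl]
      · rw [show eval (fun w => if A w = true then (1 : ZMod p) else 0) (I u) =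
          eval (fun w => bit01 p (A w)) (I u) from rfl, hIe, if_neg (fun h => h3 h.symm)]
      · exact map_zero _
      · exact map_zero _
    rw [Finset.sum_congr rfl fun u _ => h1 u, Finset.sum_ite_eq' Finset.univ v]
    simp

/-- Affine oracles have low degree. -/
theorem aff_low {p : ℕ} [Fact p.Prime] (k n : List Bool → ℕ)
    (x : (q : List Bool) → Fin (n q) → GaloisField p (k q))
    (π : (q : List Bool) → GaloisField p (k q) → Bool) (c : Polynomial ℕ)
    (hk : ∀ q, 0 < k q ∧ k q ≤ c.eval q.length) (hn : ∀ q, n q ≤ q.length) :
    IsLowDegree p (affOracle p k n x π) := by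
  refine ⟨c * Polynomial.C (p - 1), fun q => ?_⟩
  obtain ⟨P, h1, h2, h3⟩ := exists_linear (p := p) (K := GaloisField p (k q))
    (fun b : Fin (n q) → Bool => List.ofFn b)
    (fun b => ∏ i, (if b i = true then x q i else 1 - x q i)) (π q)
  refine ⟨P, ?_, ?_, fun A => ?_⟩
  · rw [GaloisField.finrank p (hk q).1.ne'] at h1
    refine h1.trans ?_
    rw [Polynomial.eval_mul, Polynomial.eval_C]
    exact Nat.mul_le_mul_right _ (hk q).2
  · intro w hw
    obtain ⟨b, rfl⟩ := h2 w hw
    rw [List.length_ofFn]
    exact hn q
  · rw [h3 A]
    rfl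

end Pool.Agent.LD
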