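import Mathlib
import Pool.Agent.Work.MP_46935e_lc.LD.Defs

/-!
# Chevalley-Warning: adding strings without changing values of low degree
-/

set_option autoImplicit false

open Finset MvPolynomial

noncomputable section

namespace Pool.Agent.LD

/-- Degree after a substitution. -/
theorem totalDegree_subst_le {σ τ R : Type*} [CommRing R] [Nontrivial R] (f : σ → MvPolynomial τ R) (m : ℕ)
    (hf : ∀ i, (f i).totalDegree ≤ m) (P : MvPolynomial σ R) :
    (bind₁ f P).totalDegree ≤ P.totalDegree * m := by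
  classical
  conv_lhs => rw [P.as_sum]
  rw [map_sum]
  refine totalDegree_finsetSum_le fun v hv => ?_
  rw [bind₁_monomial]
  refine (totalDegree_mul _ _).trans ?_
  rw [totalDegree_C, zero_add]
  refine (totalDegree_finsetProd _ _).trans ?_
  calc ∑ i ∈ v.support, (f i ^ v i).totalDegree ≤ ∑ i ∈ v.support, v i * m := by
        refine Finset.sum_le_sum fun i _ => ?_
        exact (totalDegree_pow _ _).trans (Nat.mul_le_mul_left _ (hf i))
    _ = (v.sum fun _ e => e) * m := by rw [← Finset.sum_mul]; rfl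
    _ ≤ P.totalDegree * m := Nat.mul_le_mul_right _ (le_totalDegree hv)

theorem bit01_inj {p : ℕ} [Fact p.Prime] {a b : Bool} (h : bit01 p a = bit01 p b) : a = b := by
  unfold bit01 at h
  cases a <;> cases b <;> simp at h ⊢

/-- Adding a nonempty set of strings without changing the values of few polynomials of low
degree. -/
theorem exists_add {p : ℕ} [hp : Fact p.Prime] {ι κ : Type*} [Fintype ι] (W₀ : List Bool → Bool)
    (e : ι → List Bool) (he : Function.Injective e) (h0 : ∀ i, W₀ (e i) = false)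
    (Q : Finset κ) (P : κ → MvPolynomial (List Bool) (ZMod p)) (D : ℕ)
    (hD : ∀ q ∈ Q, (P q).totalDegree ≤ D) (hc : Q.card * (D * (p - 1)) < Fintype.card ι) :
    ∃ W : List Bool → Bool, (∀ w, (¬ ∃ i, w = e i) → W w = W₀ w) ∧ (∃ i, W (e i) = true) ∧
      ∀ q ∈ Q, eval (fun w => bit01 p (W w)) (P q) = eval (fun w => bit01 p (W₀ w)) (P q) := by
  classical
  have hp1 : p - 1 ≠ 0 := by have := hp.out.two_le; omega
  set σ : List Bool → MvPolynomial ι (ZMod p) := fun w =>
    if h : ∃ i, w = e i then (X h.choose) ^ (p - 1) else C (bit01 p (W₀ w)) with hσ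
  have hσe : ∀ i, σ (e i) = (X i) ^ (p - 1) := by
    intro i
    have h : ∃ j, e i = e j := ⟨i, rfl⟩
    have h1 : h.choose = i := (he h.choose_spec).symm
    rw [hσ]
    simp only
    rw [dif_pos h, h1]
  have hσn : ∀ w, (¬ ∃ i, w = e i) → σ w = C (bit01 p (W₀ w)) := by
    intro w h
    rw [hσ]
    simp only
    rw [dif_neg h]
  have hσd : ∀ w, (σ w).totalDegree ≤ p - 1 := by
    intro w
    by_cases h : ∃ i, w = e i
    · obtain ⟨i, rfl⟩ := h
      rw [hσe]
      refine (totalDegree_pow _ _).trans ?_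
      rw [totalDegree_X, mul_one]
    · rw [hσn w h, totalDegree_C]
      exact Nat.zero_le _
  set f : κ → MvPolynomial ι (ZMod p) := fun q =>
    bind₁ σ (P q) - C (eval (fun w => bit01 p (W₀ w)) (P q)) with hf
  have hfd : ∑ q ∈ Q, (f q).totalDegree < Fintype.card ι := by
    refine lt_of_le_of_lt ?_ hc
    calc ∑ q ∈ Q, (f q).totalDegree ≤ ∑ _q ∈ Q, D * (p - 1) := by
          refine Finset.sum_le_sum fun q hq => ?_
          refine (totalDegree_sub_C_le _ _).trans ?_
          exact (totalDegree_subst_le σ (p - 1) hσd (P q)).trans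
            (Nat.mul_le_mul_right _ (hD q hq))
      _ = Q.card * (D * (p - 1)) := by rw [Finset.sum_const, smul_eq_mul]
  have hdvd := char_dvd_card_solutions_of_sum_lt p hfd
  -- values
  set wx : (ι → ZMod p) → List Bool → Bool := fun x w =>
    if h : ∃ i, w = e i then decide (x h.choose ≠ 0) else W₀ w with hwx
  have hwxe : ∀ x i, wx x (e i) = decide (x i ≠ 0) := by
    intro x i
    have h : ∃ j, e i = e j := ⟨i, rfl⟩
    have h1 : h.choose = i := (he h.choose_spec).symm
    rw [hwx]
    simp only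
    rw [dif_pos h, h1]
  have hwxn : ∀ x w, (¬ ∃ i, w = e i) → wx x w = W₀ w := by
    intro x w h
    rw [hwx]
    simp only
    rw [dif_neg h]
  have hev : ∀ (x : ι → ZMod p) (q : κ), eval x (bind₁ σ (P q)) =
      eval (fun w => bit01 p (wx x w)) (P q) := by
    intro x q
    have h1 : eval x (bind₁ σ (P q)) = eval (fun w => eval x (σ w)) (P q) :=
      eval₂Hom_bind₁ (RingHom.id _) x σ (P q)
    rw [h1]
    congr 2
    funext w
    by_cases h : ∃ i, w = e i
    · obtain ⟨i, rfl⟩ := h
      rw [hσe, hwxe, map_pow, eval_X]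
      by_cases hx : x i = 0
      · rw [hx, zero_pow hp1]
        simp [bit01]
      · rw [ZMod.pow_card_sub_one_eq_one hx]
        simp [bit01, hx]
    · rw [hσn w h, hwxn x w h, eval_C]
  -- the trivial solution
  set S := {x : ι → ZMod p // ∀ q ∈ Q, eval x (f q) = 0} with hS
  have h0S : ∀ q ∈ Q, eval (0 : ι → ZMod p) (f q) = 0 := by
    intro q _
    rw [hf]
    simp only
    rw [map_sub, hev, eval_C, sub_eq_zero]
    congr 2
    funext w
    by_cases h : ∃ i, w = e i
    · obtain ⟨i, rfl⟩ := h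
      rw [hwxe, h0]
      simp
    · rw [hwxn _ w h]
  have hcard : 1 < Fintype.card S := by
    have h1 : 0 < Fintype.card S := Fintype.card_pos_iff.2 ⟨⟨0, h0S⟩⟩
    have h2 := Nat.le_of_dvd h1 hdvd
    have h3 := hp.out.two_le
    omega
  obtain ⟨⟨x, hx⟩, hne⟩ := Fintype.exists_ne_of_one_lt_card hcard ⟨0, h0S⟩
  have hx0 : x ≠ 0 := fun h => hne (Subtype.ext h)
  obtain ⟨i, hi⟩ := Function.ne_iff.1 hx0
  refine ⟨wx x, hwxn x, ⟨i, ?_⟩, fun q hq => ?_⟩
  · rw [hwxe]
    simpa using hi
  · have h1 := hx q hq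
    rw [hf] at h1
    simp only at h1
    rw [map_sub, hev, eval_C, sub_eq_zero] at h1
    exact h1

end Pool.Agent.LD
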