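import Mathlib

/-!
# The stage construction

Worlds are oracles. For every `k` there is a promise, to be made or not: for all large `n` one of
the strings `1^k 0 b y`, `|y| = n`, belongs to the world.
-/

set_option autoImplicit false

noncomputable section

namespace Pool.Agent.LD

/-- Strings. -/
abbrev Str := List Bool

/-- Oracles. -/
abbrev World := Str → Bool

/-- The string `y` in the block of type `b` of the pair number `k`. -/
def eR (k : ℕ) (b : Bool) (y : Str) : Str := List.replicate k true ++ false :: b :: y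

lemma length_eR (k : ℕ) (b : Bool) (y : Str) : (eR k b y).length = k + 2 + y.length := by
  simp only [eR, List.length_cons, List.length_append, List.length_replicate]
  omega

lemma eR_inj (k : ℕ) (b : Bool) (y : Str) (k' : ℕ) (b' : Bool) (y' : Str)
    (h : eR k b y = eR k' b' y') : k = k' ∧ b = b' ∧ y = y' := by
  unfold eR at h
  induction k generalizing k' with
  | zero =>
    cases k' with
    | zero =>
      simp at h
      exact ⟨rfl, h.1, h.2⟩
    | succ k' =>
      rw [List.replicate_succ] at h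
      simp at h
  | succ k ih =>
    cases k' with
    | zero =>
      rw [List.replicate_succ] at h
      simp at h
    | succ k' =>
      rw [List.replicate_succ, List.replicate_succ, List.cons_append, List.cons_append] at h
      obtain ⟨h1, h2, h3⟩ := ih k' (List.cons.inj h).2
      exact ⟨by rw [h1], h2, h3⟩

/-- `z` lies in the block of the pair number `k` and the length `n`. -/
def InB (k n : ℕ) (z : Str) : Prop := ∃ (b : Bool) (y : Str), y.length = n ∧ z = eR k b y

/-- Abstract data of the construction. -/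
structure Data where
  /-- both machines of the pair number `k` reject `z` -/
  nd : ℕ → Str → World → Prop
  nd_loc : ∀ k z, ∃ L, ∀ W W' : World, (∀ w : Str, w.length < L → W w = W' w) →
    nd k z W → nd k z W'
  /-- failure of the reduction number `r` to the pair number `k` at the length `n` -/
  fail : ℕ → ℕ → ℕ → World → Prop
  fail_spec : ∀ k r, ∀ᶠ n in Filter.atTop, ∀ W₀ : World, (∀ z, ¬ nd k z W₀) →
    (∀ z, InB k n z → W₀ z = false) → ∃ (W₁ : World) (L : ℕ),
      (∀ z, ¬ InB k n z → W₁ z = W₀ z) ∧ (∃ z, InB k n z ∧ W₁ z = true) ∧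
      ∀ W : World, (∀ w : Str, w.length < L → W w = W₁ w) → (∀ z, ¬ nd k z W) → fail k r n W

/-- Conditions: finite prefix and promises. -/
structure Cond where
  m : ℕ
  u : World
  ee : ℕ → Option ℕ

/-- Legal worlds. -/
structure Full (c : Cond) (W : World) : Prop where
  pre : ∀ z : Str, z.length < c.m → W z = c.u z
  prm : ∀ k a, c.ee k = some a → ∀ n, a ≤ n → ∃ z, InB k n z ∧ W z = true

/-- `c'` is stronger than `c`. -/
structure Le (c' c : Cond) : Prop where
  m : c.m ≤ c'.m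
  u : ∀ z : Str, z.length < c.m → c'.u z = c.u z
  ee : ∀ k a, c.ee k = some a → c'.ee k = some a

lemma Le.refl (c : Cond) : Le c c := ⟨le_rfl, fun _ _ => rfl, fun _ _ h => h⟩

lemma Le.trans {c'' c' c : Cond} (h' : Le c'' c') (h : Le c' c) : Le c'' c :=
  ⟨h.m.trans h'.m, fun z hz => (h'.u z (lt_of_lt_of_le hz h.m)).trans (h.u z hz),
    fun k a hk => h'.ee k a (h.ee k a hk)⟩

lemma Full.of_le {c' c : Cond} (h : Le c' c) {W : World} (hW : Full c' W) : Full c W :=
  ⟨fun z hz => (hW.pre z (lt_of_lt_of_le hz h.m)).trans (h.u z hz),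
    fun k a hk => hW.prm k a (h.ee k a hk)⟩

/-- Longer prefix. -/
lemma prefix_full {c : Cond} {W : World} (hW : Full c W) {m : ℕ}
    (hm : c.m ≤ m) : Full ⟨m, W, c.ee⟩ W ∧ Le ⟨m, W, c.ee⟩ c :=
  ⟨⟨fun _ _ => rfl, hW.prm⟩, ⟨hm, fun z hz => hW.pre z hz, fun _ _ h => h⟩⟩

lemma len_of_InB {k n : ℕ} {z : Str} (h : InB k n z) : z.length = k + 2 + n := by
  obtain ⟨b, y, hy, rfl⟩ := h
  rw [length_eR, hy]

/-- The world which is `true` behind the prefix except on one block. -/
def holed (c : Cond) (P : Str → Prop) : World := open Classical in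
  fun z => if z.length < c.m then c.u z else if P z then false else true

lemma holed_prm {c : Cond} (hc : Full c c.u) (P : Str → Prop) {k a : ℕ} (hk : c.ee k = some a)
    {n : ℕ} (hn : a ≤ n) (hP : ∀ z, InB k n z → ¬ P z) :
    ∃ z, InB k n z ∧ holed c P z = true := by
  classical
  by_cases hm : k + 2 + n < c.m
  · obtain ⟨z, hz, hz'⟩ := hc.prm k a hk n hn
    refine ⟨z, hz, ?_⟩
    unfold holed
    rw [if_pos (by rw [len_of_InB hz]; exact hm)]
    exact hz'
  · have hz : InB k n (eR k true (List.replicate n true)) :=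
      ⟨true, _, List.length_replicate, rfl⟩
    refine ⟨_, hz, ?_⟩
    unfold holed
    rw [if_neg (by rw [len_of_InB hz]; exact hm), if_neg (hP _ hz)]

variable {D : Data}

/-- Stage for a pair. -/
theorem stage_nd {c : Cond} (hc : Full c c.u) (k : ℕ) (hk : c.ee k = none) :
    ∃ c', Full c' c'.u ∧ Le c' c ∧
      ((c'.ee = c.ee ∧ ∃ z, ∀ W, Full c' W → D.nd k z W) ∨
      (c'.ee = Function.update c.ee k (some c.m) ∧ c'.m = c.m ∧
        ∀ W, Full c W → ∀ z, ¬ D.nd k z W)) := by
  classical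
  by_cases h : ∃ W, Full c W ∧ ∃ z, D.nd k z W
  · obtain ⟨W, hW, z, hz⟩ := h
    obtain ⟨L, hL⟩ := D.nd_loc k z
    obtain ⟨h1, h2⟩ := prefix_full hW (m := max c.m L) (le_max_left _ _)
    refine ⟨_, h1, h2, Or.inl ⟨rfl, z, fun W' hW' => ?_⟩⟩
    exact hL W W' (fun w hw => (hW'.pre w (lt_of_lt_of_le hw (le_max_right _ _))).symm) hz
  · push Not at h
    refine ⟨⟨c.m, holed c (fun _ => False), Function.update c.ee k (some c.m)⟩, ⟨fun _ _ => rfl,
      fun k' a hk' n hn => ?_⟩, ⟨le_rfl, fun z hz => ?_, fun k' a hk' => ?_⟩,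
      Or.inr ⟨rfl, rfl, h⟩⟩
    · by_cases hkk : k' = k
      · subst hkk
        simp only [Function.update_self, Option.some.injEq] at hk'
        subst hk'
        have hz : InB k' n (eR k' true (List.replicate n true)) :=
          ⟨true, _, List.length_replicate, rfl⟩
        refine ⟨_, hz, ?_⟩
        simp only
        unfold holed
        rw [if_neg (by rw [len_of_InB hz]; omega), if_neg (by simp)]
      · simp only [Function.update_of_ne hkk] at hk'
        exact holed_prm hc _ hk' hn fun _ _ h => h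
    · simp only
      unfold holed
      rw [if_pos hz]
    · have hne : k' ≠ k := by
        rintro rfl
        rw [hk] at hk'
        cases hk'
      simp only [Function.update_of_ne hne]
      exact hk'

/-- Stage for a reduction. -/
theorem stage_fail {c c0 : Cond} (hc : Full c c.u) (hle : Le c c0) {k a : ℕ}
    (h0 : c0.ee k = none) (hnd : ∀ W, Full c0 W → ∀ z, ¬ D.nd k z W) (r : ℕ) :
    ∃ c', Full c' c'.u ∧ Le c' c ∧ c'.ee = c.ee ∧ ∃ n, a ≤ n ∧
      ∀ W, Full c' W → D.fail k r n W := by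
  classical
  obtain ⟨N, hN⟩ := Filter.eventually_atTop.1 (D.fail_spec k r)
  set n := max (max N a) c.m with hn
  have hn1 : N ≤ n := (le_max_left _ _).trans (le_max_left _ _)
  have hn2 : a ≤ n := (le_max_right _ _).trans (le_max_left _ _)
  have hn3 : c.m ≤ n := le_max_right _ _
  set W₀ : World := holed c (InB k n) with hW₀
  have hpre : ∀ z : Str, z.length < c.m → W₀ z = c.u z := fun z hz => by
    rw [hW₀]; unfold holed; rw [if_pos hz]
  have hblk : ∀ z, InB k n z → W₀ z = false := fun z hz => by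
    rw [hW₀]; unfold holed
    rw [if_neg (by rw [len_of_InB hz]; omega), if_pos hz]
  have hdisj : ∀ k' n' z, (k', n') ≠ (k, n) → InB k' n' z → ¬ InB k n z := by
    rintro k' n' z hne ⟨b, y, hy, rfl⟩ ⟨b', y', hy', h⟩
    obtain ⟨h1, -, h2⟩ := eR_inj _ _ _ _ _ _ h
    apply hne
    rw [h1, ← hy, h2, hy']
  have hF0 : Full c0 W₀ := by
    refine ⟨fun z hz => (hpre z (lt_of_lt_of_le hz hle.m)).trans (hle.u z hz),
      fun k' a' hk' n' hn' => ?_⟩
    have hne : k' ≠ k := by
      rintro rfl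
      rw [h0] at hk'
      cases hk'
    exact holed_prm hc _ (hle.ee k' a' hk') hn' fun z hz =>
      hdisj k' n' z (fun h => hne (Prod.mk.inj h).1) hz
  obtain ⟨W₁, L, h1, ⟨z₁, hz₁, hz₁'⟩, h3⟩ := hN n hn1 W₀ (hnd W₀ hF0) hblk
  have hF1 : Full c W₁ := by
    refine ⟨fun z hz => ?_, fun k' a' hk' n' hn' => ?_⟩
    · rw [h1 z (fun h => by rw [len_of_InB h] at hz; omega)]
      exact hpre z hz
    · by_cases hkn : (k', n') = (k, n)
      · obtain ⟨rfl, rfl⟩ := Prod.mk.inj hkn
        exact ⟨z₁, hz₁, hz₁'⟩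
      · obtain ⟨z, hz, hz'⟩ := holed_prm hc (InB k n) hk' hn' fun z hz =>
          hdisj k' n' z hkn hz
        refine ⟨z, hz, ?_⟩
        rw [h1 z (hdisj k' n' z hkn hz)]
        exact hz'
  obtain ⟨h4, h5⟩ := prefix_full hF1 (m := max c.m L) (le_max_left _ _)
  refine ⟨_, h4, h5, rfl, n, hn2, fun W hW => h3 W (fun w hw => ?_) ?_⟩
  · exact hW.pre w (lt_of_lt_of_le hw (le_max_right _ _))
  · exact hnd W ((hW.of_le h5).of_le hle)

/-- The invariant. -/
structure Inv (D : Data) (c : Cond) : Prop where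
  full : Full c c.u
  ex : ∀ k a, c.ee k = some a → ∃ c0, Le c c0 ∧ c0.ee k = none ∧
    ∀ W, Full c0 W → ∀ z, ¬ D.nd k z W

lemma Inv.of_ee {c c' : Cond} (h : Inv D c) (hg : Full c' c'.u) (hle : Le c' c)
    (he : c'.ee = c.ee) : Inv D c' := by
  refine ⟨hg, fun k a hk => ?_⟩
  rw [he] at hk
  obtain ⟨c0, h2, h3, h4⟩ := h.ex k a hk
  exact ⟨c0, hle.trans h2, h3, h4⟩

/-- The pair number `k` is settled. -/
def NdS (D : Data) (k : ℕ) (c : Cond) : Prop :=
  (∃ z, ∀ W, Full c W → D.nd k z W) ∨ ∃ a, c.ee k = some a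

/-- The reduction number `r` to the pair number `k` is settled. -/
def FailS (D : Data) (k r : ℕ) (c : Cond) : Prop :=
  (∃ z, ∀ W, Full c W → D.nd k z W) ∨
    ∀ a, c.ee k = some a → ∃ n, a ≤ n ∧ ∀ W, Full c W → D.fail k r n W

lemma NdS.mono {k : ℕ} {c c' : Cond} (hle : Le c' c) (h : NdS D k c) : NdS D k c' := by
  rcases h with ⟨q, hq⟩ | ⟨a, ha⟩
  · exact Or.inl ⟨q, fun W hW => hq W (hW.of_le hle)⟩
  · exact Or.inr ⟨a, hle.ee k a ha⟩

theorem next {c : Cond} (h : Inv D c) (i : ℕ) (hi : ∀ j < i, NdS D j c) :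
    ∃ c', Inv D c' ∧ Le c' c ∧ NdS D i c' ∧
      FailS D (Nat.unpair i).1 (Nat.unpair i).2 c' ∧ i < c'.m := by
  -- the pair
  obtain ⟨c2, i2, l2, p2⟩ : ∃ c2, Inv D c2 ∧ Le c2 c ∧ NdS D i c2 := by
    by_cases hk : ∃ a, c.ee i = some a
    · exact ⟨c, h, Le.refl _, Or.inr hk⟩
    · have hk' : c.ee i = none := by
        rcases h3 : c.ee i with _ | a
        · rfl
        · exact absurd ⟨a, h3⟩ hk
      obtain ⟨c2, g2, l2, h2⟩ := stage_nd (D := D) h.full i hk'
      rcases h2 with ⟨e2, q, hq⟩ | ⟨e2, -, hs⟩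
      · exact ⟨c2, h.of_ee g2 l2 e2, l2, Or.inl ⟨q, hq⟩⟩
      · refine ⟨c2, ⟨g2, fun k a hka => ?_⟩, l2, Or.inr ⟨c.m, ?_⟩⟩
        · by_cases hki : k = i
          · subst hki
            exact ⟨c, l2, hk', hs⟩
          · rw [e2, Function.update_of_ne hki] at hka
            obtain ⟨c0, h4, h5, h6⟩ := h.ex k a hka
            exact ⟨c0, l2.trans h4, h5, h6⟩
        · rw [e2, Function.update_self]
  -- the reduction
  obtain ⟨c3, i3, l3, p3⟩ : ∃ c3, Inv D c3 ∧ Le c3 c2 ∧
      FailS D (Nat.unpair i).1 (Nat.unpair i).2 c3 := by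
    have hs : NdS D (Nat.unpair i).1 c2 := by
      rcases lt_or_eq_of_le (Nat.unpair_left_le i) with h3 | h3
      · exact (hi _ h3).mono l2
      · rw [h3]
        exact p2
    rcases hs with hq | ⟨a, ha⟩
    · exact ⟨c2, i2, Le.refl _, Or.inl hq⟩
    · obtain ⟨c0, h4, h5, h6⟩ := i2.ex _ a ha
      obtain ⟨c3, g3, l3, e3, n, hn, hf⟩ :=
        stage_fail (a := a) i2.full h4 h5 h6 (Nat.unpair i).2
      refine ⟨c3, i2.of_ee g3 l3 e3, l3, Or.inr ?_⟩
      intro a' ha'
      rw [e3, ha] at ha'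
      cases ha'
      exact ⟨n, hn, hf⟩
  -- the prefix
  obtain ⟨g4, l4⟩ := prefix_full i3.full (m := max c3.m (i + 1)) (le_max_left _ _)
  refine ⟨_, i3.of_ee g4 l4 rfl, (l4.trans l3).trans l2, NdS.mono (l4.trans l3) p2, ?_,
    lt_of_lt_of_le (Nat.lt_succ_self i) (le_max_right _ _)⟩
  rcases p3 with ⟨q, hq⟩ | h3
  · exact Or.inl ⟨q, fun W hW => hq W (hW.of_le l4)⟩
  · right
    intro a ha
    obtain ⟨n, hn, hf⟩ := h3 a ha
    exact ⟨n, hn, fun W hW => hf W (hW.of_le l4)⟩

/-- The first condition. -/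
def c00 : Cond := ⟨0, fun _ => true, fun _ => none⟩

lemma inv_c00 : Inv D c00 := by
  refine ⟨⟨fun _ _ => rfl, ?_⟩, ?_⟩
  · intro k a h
    cases h
  · intro k a h
    cases h

/-- Steps of the chain. -/
structure StepS (D : Data) (i : ℕ) (c c' : Cond) : Prop where
  inv : Inv D c'
  le : Le c' c
  nd : NdS D i c'
  fail : FailS D (Nat.unpair i).1 (Nat.unpair i).2 c'
  m : i < c'.m

theorem exists_chain (D : Data) : ∃ c : ℕ → Cond, Inv D (c 0) ∧
    ∀ i, StepS D i (c i) (c (i + 1)) := by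
  classical
  have key : ∀ (i : ℕ) (c : {c : Cond // Inv D c ∧ ∀ j < i, NdS D j c}),
      ∃ c' : {c : Cond // Inv D c ∧ ∀ j < i + 1, NdS D j c}, StepS D i c.1 c'.1 := by
    rintro i ⟨c, hc, hi⟩
    obtain ⟨c', h1, h2, h4, h5, h6⟩ := next hc i hi
    have hs : ∀ j < i + 1, NdS D j c' := by
      intro j hj
      rcases lt_or_eq_of_le (Nat.lt_succ_iff.1 hj) with h7 | h7
      · exact (hi j h7).mono h2
      · rw [h7]
        exact h4
    exact ⟨⟨c', h1, hs⟩, ⟨h1, h2, h4, h5, h6⟩⟩
  choose f hf using key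
  let g : (i : ℕ) → {c : Cond // Inv D c ∧ ∀ j < i, NdS D j c} := fun i =>
    Nat.rec ⟨c00, inv_c00, fun j hj => absurd hj (Nat.not_lt_zero _)⟩ (fun i c => f i c) i
  exact ⟨fun i => (g i).1, (g 0).2.1, fun i => hf i (g i)⟩

/-- The abstract theorem. -/
theorem exists_world (D : Data) : ∃ W : World, ∀ k, (∃ z, D.nd k z W) ∨
    ∃ a, (∀ n, a ≤ n → ∃ z, InB k n z ∧ W z = true) ∧ ∀ r, ∃ n, a ≤ n ∧ D.fail k r n W := by
  obtain ⟨c, h0, hs⟩ := exists_chain D
  have hle : ∀ i j, i ≤ j → Le (c j) (c i) := by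
    intro i j hij
    induction j, hij using Nat.le_induction with
    | base => exact Le.refl _
    | succ j _ ih => exact (hs j).le.trans ih
  have hm : ∀ i, i ≤ (c i).m := by
    intro i
    rcases i with _ | i
    · exact Nat.zero_le _
    · exact (hs i).m
  have hfull0 : ∀ i, Full (c i) (c i).u := by
    intro i
    rcases i with _ | i
    · exact h0.full
    · exact (hs i).inv.full
  set W : World := fun z => (c (z.length + 1)).u z with hW
  have hWu : ∀ i (z : Str), z.length < (c i).m → W z = (c i).u z := by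
    intro i z hz
    rw [hW]
    simp only
    rcases le_total i (z.length + 1) with h | h
    · exact (hle _ _ h).u z hz
    · exact ((hle _ _ h).u z (lt_of_lt_of_le (Nat.lt_succ_self _) (hm _))).symm
  have hfull : ∀ i, Full (c i) W := by
    intro i
    refine ⟨fun z hz => hWu i z hz, fun k a hk n hn => ?_⟩
    set j := max i (k + 2 + n + 1) with hj
    have h1 : k + 2 + n < (c j).m := lt_of_lt_of_le (Nat.lt_succ_self _)
      ((le_max_right _ _).trans (hm j))
    obtain ⟨z, hz, hz'⟩ := (hfull0 j).prm k a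
      ((hle i j (le_max_left _ _)).ee k a hk) n hn
    refine ⟨z, hz, ?_⟩
    rw [hWu j _ (by rw [len_of_InB hz]; exact h1)]
    exact hz'
  refine ⟨W, fun k => ?_⟩
  rcases (hs k).nd with ⟨q, hq⟩ | ⟨a, ha⟩
  · exact Or.inl ⟨q, hq W (hfull _)⟩
  · by_cases hns : ∃ q, D.nd k q W
    · exact Or.inl hns
    · refine Or.inr ⟨a, fun n hn => (hfull (k + 1)).prm k a ha n hn, fun r => ?_⟩
      have h1 := (hs (Nat.pair k r)).fail
      rw [Nat.unpair_pair] at h1
      simp only at h1
      rcases h1 with ⟨q, hq⟩ | h1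
      · exact absurd ⟨q, hq W (hfull _)⟩ hns
      · have hkr : k + 1 ≤ Nat.pair k r + 1 := Nat.succ_le_succ (Nat.left_le_pair k r)
        obtain ⟨n, hn, hf⟩ := h1 a ((hle _ _ hkr).ee k a ha)
        exact ⟨n, hn, hf W (hfull _)⟩

end Pool.Agent.LD
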