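import Mathlib
import Pool.Agent.Work.MP_46935e_lc.RO.Defs

/-!
# The class Mod_p P relative to an oracle
-/

set_option autoImplicit false

namespace Pool.Agent.LD

open Pool.Agent.RO N68a2faeb

/-- The class `Mod_p P` relative to `R` (for `p = 2` this is `⊕P`): `L x` holds if and only if the
number of accepted certificates of `x` of polynomially bounded length is not divisible by `p`. -/
def ModPRel (p : ℕ) (R : List Bool → Bool) : DecisionComplexityClass :=
  { L | ∃ (q : Polynomial ℕ), ∃ V : (List Bool × List Bool) → Bool, IsPolyTimeRel R V ∧
      ∀ x, L x ↔ ¬ p ∣ Set.ncard {w : List Bool | w.length ≤ q.eval x.length ∧ V (x, w) = true} }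

/-- The class `RP` relative to `R`: if `L x` holds then at least half of the strings `r` of length
`q |x|` are accepted, and otherwise none is. -/
def RPRel (R : List Bool → Bool) : DecisionComplexityClass :=
  { L | ∃ (q : Polynomial ℕ), ∃ V : (List Bool × List Bool) → Bool, IsPolyTimeRel R V ∧
      ∀ x, (L x = true → 2 ^ q.eval x.length ≤
          2 * Set.ncard {r : List Bool | r.length = q.eval x.length ∧ V (x, r) = true}) ∧
        (L x = false → ∀ r : List Bool, r.length = q.eval x.length → V (x, r) = false) }

end Pool.Agent.LD
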