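import Mathlib

/-!
# The isolation lemma of Mulmuley, Vazirani and Vazirani
-/

set_option autoImplicit false

open Finset

noncomputable section

namespace Pool.Agent.LD

variable {M : ℕ} {Ω : Type*}

/-- The weight of the set `β`, the weights of the points are given by `val (ρ i)`. -/
def wgt (val : Ω → ℕ) (ρ : Fin M → Ω) (β : Fin M → Bool) : ℕ :=
  ∑ i, if β i = true then val (ρ i) else 0

lemma wgt_split (val : Ω → ℕ) (ρ : Fin M → Ω) (β : Fin M → Bool) (i : Fin M) :
    wgt val ρ β = (if β i = true then val (ρ i) else 0) +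
      ∑ j ∈ univ.erase i, if β j = true then val (ρ j) else 0 := by
  rw [wgt, ← Finset.add_sum_erase _ _ (mem_univ i)]

lemma wgt_rest {val : Ω → ℕ} {ρ ρ' : Fin M → Ω} {i : Fin M} (h : ∀ j, j ≠ i → ρ j = ρ' j)
    (β : Fin M → Bool) : ∑ j ∈ univ.erase i, (if β j = true then val (ρ j) else 0) =
      ∑ j ∈ univ.erase i, if β j = true then val (ρ' j) else 0 := by
  refine Finset.sum_congr rfl fun j hj => ?_
  rw [h j (Finset.ne_of_mem_erase hj)]

/-- Two minimal sets are separated by `i`. -/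
def Bad (val : Ω → ℕ) (S : Finset (Fin M → Bool)) (i : Fin M) (ρ : Fin M → Ω) : Prop :=
  ∃ β ∈ S, ∃ γ ∈ S, β i = true ∧ γ i = false ∧ wgt val ρ β = wgt val ρ γ ∧
    ∀ δ ∈ S, wgt val ρ β ≤ wgt val ρ δ

lemma bad_val {val : Ω → ℕ} {S : Finset (Fin M → Bool)} {i : Fin M} {ρ ρ' : Fin M → Ω}
    (h : ∀ j, j ≠ i → ρ j = ρ' j) (h1 : Bad val S i ρ) (h2 : Bad val S i ρ') :
    val (ρ i) ≤ val (ρ' i) := by
  obtain ⟨β, hβ, γ, hγ, b1, b2, b3, b4⟩ := h1
  obtain ⟨β', hβ', γ', hγ', c1, c2, c3, c4⟩ := h2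
  have e : ∀ δ : Fin M → Bool, δ i = false → wgt val ρ δ = wgt val ρ' δ := by
    intro δ hδ
    rw [wgt_split val ρ δ i, wgt_split val ρ' δ i, wgt_rest h, hδ]
    simp
  have e1 : wgt val ρ γ ≤ wgt val ρ' γ' := by
    rw [← e γ' c2, ← b3]
    exact b4 γ' hγ'
  have e2 : wgt val ρ' γ' ≤ wgt val ρ γ := by
    rw [e γ b2, ← c3]
    exact c4 γ hγ
  by_contra hc
  push Not at hc
  -- in the world `ρ'` the set `β` is lighter than the minimum
  have e3 := c4 β hβ
  rw [c3, wgt_split val ρ' β i, b1, if_pos rfl, ← wgt_rest h] at e3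
  have e4 := b3
  rw [wgt_split val ρ β i, b1, if_pos rfl] at e4
  omega

open Classical in
theorem isolation [Fintype Ω] (val : Ω → ℕ) (F : ℕ)
    (hF : ∀ c, #{ω | val ω = c} ≤ F) (S : Finset (Fin M → Bool)) (hS : S.Nonempty) :
    Fintype.card Ω ^ M ≤
      #{ρ : Fin M → Ω | ∃ β ∈ S, ∀ γ ∈ S, γ ≠ β → wgt val ρ β < wgt val ρ γ} +
        M * (F * Fintype.card Ω ^ (M - 1)) := by
  set G : Finset (Fin M → Ω) :=
    {ρ : Fin M → Ω | ∃ β ∈ S, ∀ γ ∈ S, γ ≠ β → wgt val ρ β < wgt val ρ γ} with hG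
  set B : Fin M → Finset (Fin M → Ω) := fun i => {ρ | Bad val S i ρ} with hB
  have hcov : (univ : Finset (Fin M → Ω)) ⊆ G ∪ univ.biUnion B := by
    intro ρ _
    by_cases hρ : ρ ∈ G
    · exact Finset.mem_union_left _ hρ
    · refine Finset.mem_union_right _ ?_
      obtain ⟨β, hβ, hmin⟩ := Finset.exists_min_image S (fun δ => wgt val ρ δ) hS
      have h1 : ∃ γ ∈ S, γ ≠ β ∧ wgt val ρ γ ≤ wgt val ρ β := by
        by_contra hc
        push Not at hc
        exact hρ (Finset.mem_filter.2 ⟨mem_univ _, β, hβ, hc⟩)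
      obtain ⟨γ, hγ, hne, hle⟩ := h1
      have heq : wgt val ρ β = wgt val ρ γ := le_antisymm (hmin γ hγ) hle
      obtain ⟨i, hi⟩ := Function.ne_iff.1 hne
      refine Finset.mem_biUnion.2 ⟨i, mem_univ _, Finset.mem_filter.2 ⟨mem_univ _, ?_⟩⟩
      cases hb : β i with
      | true =>
        rw [hb] at hi
        exact ⟨β, hβ, γ, hγ, hb, by simpa using hi, heq, hmin⟩
      | false =>
        rw [hb] at hi
        refine ⟨γ, hγ, β, hβ, by simpa using hi, hb, heq.symm, fun δ hδ => ?_⟩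
        rw [← heq]
        exact hmin δ hδ
  have hBc : ∀ i, (B i).card ≤ F * Fintype.card Ω ^ (M - 1) := by
    intro i
    set f : (Fin M → Ω) → ({j // j ≠ i} → Ω) := fun ρ j => ρ j.1 with hf
    have h1 : (B i).card ≤ F * ((B i).image f).card := by
      refine Finset.card_le_mul_card_image _ F fun a ha => ?_
      obtain ⟨ρ₀, hρ₀, rfl⟩ := Finset.mem_image.1 ha
      refine le_trans ?_ (hF (val (ρ₀ i)))
      refine Finset.card_le_card_of_injOn (fun ρ => ρ i) (fun ρ hρ => ?_) (fun ρ hρ ρ' hρ' h => ?_)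
      · have hρ1 := Finset.mem_filter.1 (Finset.mem_coe.1 hρ)
        have h2 : ∀ j, j ≠ i → ρ j = ρ₀ j := fun j hj => congrFun hρ1.2 ⟨j, hj⟩
        have b1 := (Finset.mem_filter.1 hρ1.1).2
        have b2 := (Finset.mem_filter.1 hρ₀).2
        refine Finset.mem_coe.2 (Finset.mem_filter.2 ⟨mem_univ _, ?_⟩)
        exact le_antisymm (bad_val h2 b1 b2) (bad_val (fun j hj => (h2 j hj).symm) b2 b1)
      · have hρ1 := Finset.mem_filter.1 (Finset.mem_coe.1 hρ)
        have hρ1' := Finset.mem_filter.1 (Finset.mem_coe.1 hρ')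
        funext j
        by_cases hj : j = i
        · rw [hj]; exact h
        · have h2 : f ρ ⟨j, hj⟩ = f ρ' ⟨j, hj⟩ := by rw [hρ1.2, hρ1'.2]
          exact h2
    refine h1.trans (Nat.mul_le_mul_left _ ?_)
    refine (Finset.card_le_univ _).trans ?_
    rw [Fintype.card_fun]
    apply le_of_eq
    congr 1
    rw [Fintype.card_subtype_compl, Fintype.card_fin]
    simp
  calc Fintype.card Ω ^ M = (univ : Finset (Fin M → Ω)).card := by
        rw [Finset.card_univ, Fintype.card_fun, Fintype.card_fin]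
    _ ≤ (G ∪ univ.biUnion B).card := Finset.card_le_card hcov
    _ ≤ G.card + (univ.biUnion B).card := Finset.card_union_le _ _
    _ ≤ G.card + ∑ i : Fin M, (B i).card := Nat.add_le_add_left Finset.card_biUnion_le _
    _ ≤ G.card + ∑ _i : Fin M, F * Fintype.card Ω ^ (M - 1) :=
        Nat.add_le_add_left (Finset.sum_le_sum fun i _ => hBc i) _
    _ = G.card + M * (F * Fintype.card Ω ^ (M - 1)) := by
        rw [Finset.sum_const, Finset.card_univ, Fintype.card_fin, smul_eq_mul]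

end Pool.Agent.LD
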