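import Pool.Agent.Work.MP_46935e_lc.LD.CW
import Pool.Agent.Work.MP_46935e_lc.LD.Chain
import Pool.Agent.Work.MP_46935e_lc.S1.Mach

/-!
# The diagonalisation against Turing reductions
-/

set_option autoImplicit false

noncomputable section

namespace Pool.Agent.LD

open Pool.Agent.RO Pool.Agent.PT Pool.Agent.Work.MP_46935e_lc

/-! ### Locality -/

/-- Locality of operators. -/
def IsLocal (Φ : World → World) : Prop :=
  ∀ (q : Str) (W W' : World), (∀ w : Str, w.length ≤ q.length → W w = W' w) → Φ W q = Φ W' q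

theorem IsLowDegree.isLocal {p : ℕ} [Fact p.Prime] {Φ : World → World} (h : IsLowDegree p Φ) :
    IsLocal Φ := by
  obtain ⟨d, h⟩ := h
  intro q W W' hW
  obtain ⟨P, -, h2, h3⟩ := h q
  apply bit01_inj (p := p)
  rw [← h3 W, ← h3 W']
  refine MvPolynomial.eval₂Hom_congr' rfl ?_ rfl
  intro w hw _
  rw [hW w (h2 w hw)]

/-- The oracle together with the operator has low degree. -/
theorem IsLowDegree.join {p : ℕ} [Fact p.Prime] {T : World → World} (h : IsLowDegree p T) :
    IsLowDegree p (fun A => join A (T A)) := by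
  obtain ⟨d, h⟩ := h
  refine ⟨d + 1, fun q => ?_⟩
  match q with
  | [] =>
    refine ⟨0, by simp, by simp, fun A => ?_⟩
    rw [map_zero]
    rfl
  | true :: w =>
    refine ⟨MvPolynomial.X w, ?_, ?_, fun A => ?_⟩
    · rw [MvPolynomial.totalDegree_X, Polynomial.eval_add, Polynomial.eval_one]
      omega
    · intro v hv
      rw [MvPolynomial.vars_X, Finset.mem_singleton] at hv
      rw [hv, List.length_cons]
      omega
    · rw [MvPolynomial.eval_X]
      rfl
  | false :: z =>
    obtain ⟨P, h1, h2, h3⟩ := h z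
    refine ⟨P, ?_, ?_, fun A => h3 A⟩
    · refine h1.trans ?_
      rw [Polynomial.eval_add, Polynomial.eval_one, List.length_cons]
      exact (eval_mono d (Nat.le_succ _)).trans (Nat.le_succ _)
    · intro v hv
      rw [List.length_cons]
      exact (h2 v hv).trans (Nat.le_succ _)

/-! ### Certificates -/

lemma acc_cert' (d : VD) {W : World} {n : ℕ} {x : Str} (hx : x.length ≤ n)
    (h : acc d W x) : ∃ Q : Finset Str, Q.card ≤ d.rb n ∧ (∀ q ∈ Q, q.length ≤ d.ub n) ∧
      ∀ W' : World, (∀ q ∈ Q, W' q = W q) → acc d W' x := by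
  obtain ⟨w, hw⟩ := h
  obtain ⟨Q, h1, h2, h3⟩ := S1.vsol_cert d hx (show S1.vsol d x w W from hw)
  exact ⟨Q, h1, h2, fun W' hW' => ⟨w, h3 W' hW'⟩⟩

/-! ### Reductions -/

/-- Turing reductions. -/
structure TR where
  g : List Bool × List Bool → Bool × List Bool
  p : Polynomial ℕ
  hg : N68a2faeb.IsPolyTime g

/-- The output of a reduction. -/
def TR.out (r : TR) (τ : ℕ → ℕ) (O S : World) (x : Str) : Option Str :=
  orun r.g (join O S) x (τ x.length + r.p.eval x.length) []

variable (Φ : World → World) (τ : ℕ → ℕ)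

/-- Both machines reject. -/
def pnd (d : VD × VD) (z : Str) (W : World) : Prop := ¬ acc d.1 (Φ W) z ∧ ¬ acc d.2 (Φ W) z

/-- Failure of a reduction to the pair of the complements of the languages of two machines. -/
def pfail (d : VD × VD) (r : TR) (k n : ℕ) (W : World) : Prop :=
  ∃ S : World, (∀ z, S z = true → acc d.2 (Φ W) z) ∧ (∀ z, S z = false → acc d.1 (Φ W) z) ∧
    ¬ (((∀ y : Str, y.length = n → W (eR k true y) = false) →
        r.out τ (Φ W) S (List.replicate n true) = some [true]) ∧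
      ((∀ y : Str, y.length = n → W (eR k false y) = false) →
        r.out τ (Φ W) S (List.replicate n true) = some [false]))

variable {Φ τ}

lemma pnd_loc (hΦ : IsLocal Φ) (d : VD × VD) (z : Str) :
    ∃ L, ∀ W W' : World, (∀ w : Str, w.length < L → W w = W' w) → pnd Φ d z W → pnd Φ d z W' := by
  refine ⟨d.1.ub z.length + d.2.ub z.length + 1, fun W W' h => ?_⟩
  have h1 : ∀ x : Str, x.length ≤ d.1.ub z.length + d.2.ub z.length → Φ W' x = Φ W x :=
    fun x hx => (hΦ x W W' fun w hw => h w (by omega)).symm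
  rintro ⟨h2, h3⟩
  exact ⟨fun h4 => h2 (acc_of_agree d.1 le_rfl (fun x hx => h1 x (by omega)) h4),
    fun h4 => h3 (acc_of_agree d.2 le_rfl (fun x hx => h1 x (by omega)) h4)⟩

/-- Bound for the lengths of the queries of a reduction. -/
def Ln (κ : ℕ) (τ : ℕ → ℕ) (r : TR) (n : ℕ) : ℕ := (4 * n + 1 + 4 * (τ n + r.p.eval n) + 5) ^ κ

/-- Bound for the size of the certificates. -/
def Bn (d : VD × VD) (κ : ℕ) (τ : ℕ → ℕ) (r : TR) (n : ℕ) : ℕ :=
  (S1.rbP d.1).eval (Ln κ τ r n) + (S1.rbP d.2).eval (Ln κ τ r n)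

/-- Bound for the lengths of all queries. -/
def Mn (d : VD × VD) (κ : ℕ) (τ : ℕ → ℕ) (r : TR) (n : ℕ) : ℕ :=
  Ln κ τ r n + ((S1.ubP d.1).eval (Ln κ τ r n) + (S1.ubP d.2).eval (Ln κ τ r n))

lemma small (hτ : SubExp τ) (d : VD × VD) (κ : ℕ) (r : TR) (D : Polynomial ℕ) (c : ℕ) :
    ∀ᶠ n in Filter.atTop, ((τ n + r.p.eval n) + (τ n + r.p.eval n) * Bn d κ τ r n) *
      (D.eval (Mn d κ τ r n) * c) < 2 ^ n := by
  have ht : SubExp (fun n => τ n + r.p.eval n) := hτ.add (SubExp.id.eval r.p)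
  have hL : SubExp (Ln κ τ r) := by
    have h1 := (((SubExp.const 4).mul SubExp.id).add (SubExp.const 1)).add
      ((SubExp.const 4).mul ht)
    exact (h1.add (SubExp.const 5)).pow κ
  have hB : SubExp (Bn d κ τ r) := (hL.eval _).add (hL.eval _)
  have hM : SubExp (Mn d κ τ r) := hL.add ((hL.eval _).add (hL.eval _))
  have hall := (ht.add (ht.mul hB)).mul ((hM.eval D).mul (SubExp.const c))
  filter_upwards [hall.lt] with n hn
  have := hn n le_rfl (by omega)
  omega

lemma exists_TRqlen (r : TR) : ∃ κ, ∀ (O : World) (x : Str) (t : ℕ), ∀ q ∈ oqs r.g O x t [],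
    q.length ≤ qlen κ (sz x) t := exists_qlen (ptf_of_P r.hg)

theorem pfail_spec {p : ℕ} [Fact p.Prime] (hΦ : IsLowDegree p Φ) (hτ : SubExp τ) (d : VD × VD)
    (r : TR) (k : ℕ) : ∀ᶠ n in Filter.atTop, ∀ W₀ : World, (∀ z, ¬ pnd Φ d z W₀) →
      (∀ z, InB k n z → W₀ z = false) → ∃ (W₁ : World) (L : ℕ),
      (∀ z, ¬ InB k n z → W₁ z = W₀ z) ∧ (∃ z, InB k n z ∧ W₁ z = true) ∧
      ∀ W : World, (∀ w : Str, w.length < L → W w = W₁ w) → (∀ z, ¬ pnd Φ d z W) →
        pfail Φ τ d r k n W := by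
  classical
  have hloc := hΦ.isLocal
  obtain ⟨D, hD⟩ := hΦ
  choose P hP1 hP2 hP3 using hD
  obtain ⟨κ, hκ⟩ := exists_TRqlen r
  filter_upwards [small hτ d κ r D (p - 1)] with n hn W₀ hnd hblk
  set x : Str := List.replicate n true with hx
  have hxl : x.length = n := by rw [hx, List.length_replicate]
  set t := τ n + r.p.eval n with ht
  set N := Ln κ τ r n with hN
  set M := Mn d κ τ r n with hM
  set S₀ : World := fun z => decide (acc d.2 (Φ W₀) z) with hS₀
  set l := oqs r.g (join (Φ W₀) S₀) x t [] with hl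
  have hll : l.length ≤ t := length_oqs _ _ _ _ _
  have hlb : ∀ z ∈ l, z.length ≤ N := by
    intro z hz
    refine (hκ _ x t z hz).trans ?_
    rw [hN, Ln]
    refine Nat.pow_le_pow_left ?_ _
    have := sz_bits x
    omega
  set l' : Finset Str := (l.map List.tail).toFinset with hl'
  have hl'c : l'.card ≤ t := by
    refine (List.toFinset_card_le _).trans ?_
    rw [List.length_map]
    exact hll
  have hl'b : ∀ z ∈ l', z.length ≤ N := by
    intro z hz
    obtain ⟨z', hz', rfl⟩ := List.mem_map.1 (List.mem_toFinset.1 hz)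
    have h1 := hlb z' hz'
    have h2 : z'.tail.length ≤ z'.length := by rw [List.length_tail]; omega
    omega
  -- certificates
  have hcert : ∀ z : Str, ∃ Q : Finset Str, (z.length ≤ N → Q.card ≤ Bn d κ τ r n) ∧
      (z.length ≤ N → ∀ q ∈ Q, q.length ≤ M) ∧ ∀ W' : World, (∀ q ∈ Q, Φ W' q = Φ W₀ q) →
      (S₀ z = true → acc d.2 (Φ W') z) ∧ (S₀ z = false → acc d.1 (Φ W') z) := by
    intro z
    by_cases hz : acc d.2 (Φ W₀) z
    · obtain ⟨Q, h1, h2, h3⟩ := acc_cert' d.2 (le_refl z.length) hz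
      refine ⟨Q, fun h => ?_, fun h q hq => ?_, fun W' hW' => ⟨fun _ => h3 _ hW', fun h => ?_⟩⟩
      · refine h1.trans ?_
        rw [← S1.rbP_eval]
        exact (eval_mono _ h).trans (Nat.le_add_left _ _)
      · refine (h2 q hq).trans ?_
        rw [← S1.ubP_eval]
        refine (eval_mono _ h).trans ?_
        rw [hM, Mn]
        exact (Nat.le_add_left _ _).trans (Nat.le_add_left _ _)
      · rw [hS₀] at h
        simp only [decide_eq_false_iff_not] at h
        exact absurd hz h
    · have hz1 : acc d.1 (Φ W₀) z := by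
        by_contra hc
        exact hnd z ⟨hc, hz⟩
      obtain ⟨Q, h1, h2, h3⟩ := acc_cert' d.1 (le_refl z.length) hz1
      refine ⟨Q, fun h => ?_, fun h q hq => ?_, fun W' hW' => ⟨fun h => ?_, fun _ => h3 _ hW'⟩⟩
      · refine h1.trans ?_
        rw [← S1.rbP_eval]
        exact (eval_mono _ h).trans (Nat.le_add_right _ _)
      · refine (h2 q hq).trans ?_
        rw [← S1.ubP_eval]
        refine (eval_mono _ h).trans ?_
        rw [hM, Mn]
        exact (Nat.le_add_right _ _).trans (Nat.le_add_left _ _)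
      · rw [hS₀] at h
        simp only [decide_eq_true_eq] at h
        exact absurd h hz
  choose C hC1 hC2 hC3 using hcert
  set Q : Finset Str := l' ∪ l'.biUnion C with hQ
  have hNM : N ≤ M := by rw [hM, Mn]; omega
  have hQc : Q.card ≤ t + t * Bn d κ τ r n := by
    refine (Finset.card_union_le _ _).trans (add_le_add hl'c ?_)
    refine Finset.card_biUnion_le.trans ?_
    calc ∑ z ∈ l', (C z).card ≤ ∑ _z ∈ l', Bn d κ τ r n :=
          Finset.sum_le_sum fun z hz => hC1 z (hl'b z hz)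
      _ = l'.card * Bn d κ τ r n := by rw [Finset.sum_const, smul_eq_mul]
      _ ≤ t * Bn d κ τ r n := Nat.mul_le_mul_right _ hl'c
  have hQb : ∀ q ∈ Q, q.length ≤ M := by
    intro q hq
    rcases Finset.mem_union.1 hq with h | h
    · exact (hl'b q h).trans hNM
    · obtain ⟨z, hz, hqz⟩ := Finset.mem_biUnion.1 h
      exact hC2 z (hl'b z hz) q hqz
  -- the new strings
  set b : Bool := decide (r.out τ (Φ W₀) S₀ x = some [true]) with hb
  have hcardF : Fintype.card (Fin n → Bool) = 2 ^ n := by simp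
  obtain ⟨W₁, h1, ⟨i₁, h2⟩, h3⟩ := exists_add (p := p) (ι := Fin n → Bool) (κ := Str) W₀
    (fun f => eR k b (List.ofFn f))
    (fun f f' hff => List.ofFn_injective (eR_inj _ _ _ _ _ _ hff).2.2)
    (fun f => hblk _ ⟨b, _, List.length_ofFn, rfl⟩) Q P (D.eval M)
    (fun q hq => (hP1 q).trans (eval_mono _ (hQb q hq)))
    (by
      rw [hcardF]
      exact lt_of_le_of_lt (Nat.mul_le_mul_right _ hQc) hn)
  have h1' : ∀ z, (∀ y : Str, y.length = n → z ≠ eR k b y) → W₁ z = W₀ z := by
    intro z hz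
    refine h1 z ?_
    rintro ⟨f, rfl⟩
    exact hz _ List.length_ofFn rfl
  have h3' : ∀ q ∈ Q, Φ W₁ q = Φ W₀ q := by
    intro q hq
    apply bit01_inj (p := p)
    rw [← hP3 q W₁, ← hP3 q W₀]
    exact h3 q hq
  refine ⟨W₁, M + k + n + 3, fun z hz => ?_, ⟨_, ⟨b, List.ofFn i₁, List.length_ofFn, rfl⟩, h2⟩,
    fun W hW hndW => ?_⟩
  · refine h1' z fun y hy h => hz ⟨b, y, hy, h⟩
  have hWQ : ∀ q ∈ Q, Φ W q = Φ W₀ q := by
    intro q hq
    rw [← h3' q hq]
    refine hloc q W W₁ fun w hw => hW w ?_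
    have := hQb q hq
    omega
  set S : World := fun z => if z ∈ l' then S₀ z else decide (acc d.2 (Φ W) z) with hS
  have hSl : ∀ z ∈ l', S z = S₀ z := fun z hz => by rw [hS]; simp only [if_pos hz]
  have hSn : ∀ z, z ∉ l' → S z = decide (acc d.2 (Φ W) z) := fun z hz => by
    rw [hS]; simp only [if_neg hz]
  have hCW : ∀ z ∈ l', ∀ q ∈ C z, Φ W q = Φ W₀ q := fun z hz q hq =>
    hWQ q (Finset.mem_union_right _ (Finset.mem_biUnion.2 ⟨z, hz, hq⟩))
  have hout : r.out τ (Φ W) S x = r.out τ (Φ W₀) S₀ x := by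
    unfold TR.out
    rw [hxl]
    refine (orun_congr r.g x t [] (fun z hz => ?_)).1
    have hzt : z.tail ∈ l' := List.mem_toFinset.2 (List.mem_map.2 ⟨z, hz, rfl⟩)
    have e1 := hWQ z.tail (Finset.mem_union_left _ hzt)
    have e2 := hSl z.tail hzt
    cases z with
    | nil => rfl
    | cons c z =>
      cases c with
      | true => exact e1.symm
      | false => exact e2.symm
  refine ⟨S, fun z hz => ?_, fun z hz => ?_, ?_⟩
  · by_cases hzl : z ∈ l'
    · rw [hSl z hzl] at hz
      exact (hC3 z W (hCW z hzl)).1 hz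
    · rw [hSn z hzl] at hz
      exact of_decide_eq_true hz
  · by_cases hzl : z ∈ l'
    · rw [hSl z hzl] at hz
      exact (hC3 z W (hCW z hzl)).2 hz
    · rw [hSn z hzl] at hz
      have h4 : ¬ acc d.2 (Φ W) z := of_decide_eq_false hz
      by_contra hc
      exact hndW z ⟨hc, h4⟩
  · rw [hout]
    rintro ⟨h4, h5⟩
    have hoth : ∀ y : Str, y.length = n → W (eR k (!b) y) = false := by
      intro y hy
      rw [hW _ (by rw [length_eR, hy]; omega), h1' _ (fun y' _ h => ?_)]
      · exact hblk _ ⟨_, y, hy, rfl⟩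
      · have h6 := (eR_inj _ _ _ _ _ _ h).2.1
        cases b <;> simp at h6
    by_cases hbt : r.out τ (Φ W₀) S₀ x = some [true]
    · have hb' : b = true := decide_eq_true hbt
      rw [hb'] at hoth
      have h6 := h5 hoth
      rw [hbt] at h6
      simp at h6
    · have hb' : b = false := decide_eq_false hbt
      rw [hb'] at hoth
      exact hbt (h4 hoth)

end Pool.Agent.LD
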