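import Pool.Agent.Work.MP_46935e_lc.LD.Mach
import Pool.Agent.Work.MP_46935e_lc.S1.Inst
import Pool.Agent.Work.MP_46935e_lc.RO.ManyOne
import Pool.Agent.Work.PT.Auto

/-!
# An oracle of low degree without complete disjoint coNP pairs
-/

set_option autoImplicit false

noncomputable section

namespace Pool.Agent.LD

open Pool.Agent.RO Pool.Agent.PT Pool.Agent.Work.MP_46935e_lc N68a2faeb

/-! ### The pair -/

open Classical in
/-- The inputs of length at least `a` whose block of type `b` is empty. -/
def side (k a : ℕ) (b : Bool) (W : World) : DecisionProblem := fun x =>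
  decide (a ≤ x.length ∧ ∀ y : Str, y.length = x.length → W (eR k b y) = false)

/-- Verifier for the complement. -/
def sV (k a : ℕ) (b : Bool) (W : World) (p : List Bool × List Bool) : Bool :=
  if p.1.length < a then true else
    if p.2.length = p.1.length then W (eR k b p.2) else false

/-- Its step function. -/
def sG (k a : ℕ) (b : Bool) (p : (List Bool × List Bool) × List Bool) : Bool × List Bool :=
  if p.1.1.length < a then (true, [true]) else
    if p.1.2.length = p.1.1.length then
      (if p.2.isEmpty = true then (false, true :: eR k b p.1.2) else (true, [p.2.headD false]))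
    else (true, [false])

lemma ptf_sG (k a : ℕ) (b : Bool) : PTF (sG k a b) := by
  unfold sG eR
  fun_prop

lemma sV_poly (W X : World) (k a : ℕ) (b : Bool) : IsPolyTimeRel (join W X) (sV k a b W) := by
  refine ⟨sG k a b, 2, of_ptf_T (ptf_sG k a b), fun p => ?_⟩
  rw [Polynomial.eval_ofNat]
  show orun (sG k a b) (join W X) p 2 [] = some [sV k a b W p]
  obtain ⟨x, y⟩ := p
  by_cases h1 : x.length < a
  · have e : sG k a b ((x, y), []) = (true, [true]) := by
      unfold sG; simp only [if_pos h1]
    rw [orun, e]
    simp only [if_true, sV, if_pos h1]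
  · by_cases h2 : y.length = x.length
    · have e1 : sG k a b ((x, y), []) = (false, true :: eR k b y) := by
        unfold sG
        simp only [if_neg h1, if_pos h2]
        rfl
      have e2 : ∀ c, sG k a b ((x, y), [c]) = (true, [c]) := by
        intro c
        unfold sG
        simp only [if_neg h1, if_pos h2]
        rfl
      rw [orun, e1]
      simp only [Bool.false_eq_true, if_false, List.nil_append]
      rw [orun, e2]
      simp only [if_true, sV, if_neg h1, if_pos h2]
      rfl
    · have e : sG k a b ((x, y), []) = (true, [false]) := by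
        unfold sG; simp only [if_neg h1, if_neg h2]
      rw [orun, e]
      simp only [if_true, sV, if_neg h1, if_neg h2]

lemma side_coNP (W X : World) (k a : ℕ) (b : Bool) : side k a b W ∈ coNPRel (join W X) := by
  classical
  show (side k a b W)ᶜ ∈ NPRel (join W X)
  refine ⟨Polynomial.X, sV k a b W, sV_poly W X k a b, fun x => ?_⟩
  have hc : (side k a b W)ᶜ x = true ↔ ¬ (side k a b W x = true) := by
    show (!(side k a b W x)) = true ↔ _
    cases side k a b W x <;> simp
  rw [hc]
  unfold side
  rw [decide_eq_true_iff]
  by_cases h1 : x.length < a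
  · refine ⟨fun _ => ⟨[], Nat.zero_le _, ?_⟩, fun _ h => ?_⟩
    · unfold sV; simp only [if_pos h1]
    · have := h.1
      omega
  · constructor
    · intro h
      have h2 : ∃ y : Str, y.length = x.length ∧ W (eR k b y) = true := by
        by_contra hcon
        push Not at hcon
        exact h ⟨not_lt.1 h1, fun y hy => by simpa using hcon y hy⟩
      obtain ⟨y, hy, hy'⟩ := h2
      refine ⟨y, ?_, ?_⟩
      · rw [Polynomial.eval_X, hy]
      · unfold sV
        simp only [if_neg h1, if_pos hy, hy']
    · rintro ⟨w, -, hw⟩ ⟨-, h3⟩
      unfold sV at hw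
      simp only [if_neg h1] at hw
      split_ifs at hw with h4
      rw [h3 w h4] at hw
      cases hw

lemma side_pair {W : World} (X : World) {k a : ℕ}
    (h : ∀ n, a ≤ n → ∃ z, InB k n z ∧ W z = true) :
    IsDisjointCoNPPairRel (join W X) (side k a true W) (side k a false W) := by
  classical
  refine ⟨side_coNP W X k a true, side_coNP W X k a false, ?_⟩
  rintro x ⟨h1, h2⟩
  unfold side at h1 h2
  rw [decide_eq_true_iff] at h1 h2
  obtain ⟨z, ⟨b, y, hy, rfl⟩, hz⟩ := h x.length h1.1
  cases b with
  | true => rw [h1.2 y hy] at hz; cases hz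
  | false => rw [h2.2 y hy] at hz; cases hz

/-! ### Countability -/

instance : Countable TR := by
  have := S1.countable_polyN
  have h2 := S1.countable_ipt (α := List Bool × List Bool) (β := Bool × List Bool)
  refine Function.Injective.countable (f := fun r : TR =>
    (r.p, (⟨r.g, r.hg⟩ : {f : List Bool × List Bool → Bool × List Bool //
      N68a2faeb.IsPolyTime f}))) ?_
  rintro ⟨g, p, hg⟩ ⟨g', p', hg'⟩ h
  simp only [Prod.mk.injEq, Subtype.mk.injEq] at h
  obtain ⟨rfl, rfl⟩ := h
  rfl

instance : Nonempty TR := ⟨⟨fun _ => (true, []), 0, of_ptf_P (PTF.const _)⟩⟩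

/-! ### The theorem -/

theorem main_neg {p : ℕ} [Fact p.Prime] {T : World → World} (hT : IsLowDegree p T)
    {τ : ℕ → ℕ} (hτ : SubExp τ) : ∃ W : World,
    ∀ A B : DecisionProblem, IsDisjointCoNPPairRel (join W (T W)) A B →
      ∃ A' B' : DecisionProblem, IsDisjointCoNPPairRel (join W (T W)) A' B' ∧
        ¬ PairReducibleRel (join W (T W)) A' B' A B ∧
        ¬ PairTuringReducibleRel (join W (T W)) τ A' B' A B := by
  classical
  obtain ⟨pairs, hpairs⟩ := exists_surjective_nat (VD × VD)
  obtain ⟨reds, hreds⟩ := exists_surjective_nat TR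
  set Φ : World → World := fun A => join A (T A) with hΦ
  have hlow : IsLowDegree p Φ := hT.join
  obtain ⟨W, hW⟩ := exists_world
    { nd := fun k z W => pnd Φ (pairs k) z W
      nd_loc := fun k z => pnd_loc hlow.isLocal (pairs k) z
      fail := fun k r n W => pfail Φ τ (pairs k) (reds r) k n W
      fail_spec := fun k r => pfail_spec hlow hτ (pairs k) (reds r) k }
  simp only at hW
  refine ⟨W, fun A B hAB => ?_⟩
  obtain ⟨dA, hdA⟩ := exists_VD (R := Φ W) (L := Aᶜ) hAB.memA
  obtain ⟨dB, hdB⟩ := exists_VD (R := Φ W) (L := Bᶜ) hAB.memB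
  obtain ⟨k, hk⟩ := hpairs (dA, dB)
  have hcA : ∀ x, Aᶜ x = !(A x) := fun x => rfl
  have hcB : ∀ x, Bᶜ x = !(B x) := fun x => rfl
  have hk1 : (pairs k).1 = dA := by rw [hk]
  have hk2 : (pairs k).2 = dB := by rw [hk]
  rcases hW k with ⟨z, hz1, hz2⟩ | ⟨a, ha, hf⟩
  · exfalso
    rw [hk1] at hz1
    rw [hk2] at hz2
    have hA : A z = true := by
      by_contra hc
      exact hz1 ((hdA z).1 (by rw [hcA]; simpa using hc))
    have hB : B z = true := by
      by_contra hc
      exact hz2 ((hdB z).1 (by rw [hcB]; simpa using hc))
    exact hAB.disjoint z ⟨hA, hB⟩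
  · have hnt : ¬ PairTuringReducibleRel (join W (T W)) τ (side k a true W) (side k a false W)
        A B := by
      rintro ⟨g, q, hg, hred⟩
      obtain ⟨r, hr⟩ := hreds ⟨g, q, hg⟩
      obtain ⟨n, hn, S, hS1, hS2, hno⟩ := hf r
      rw [hk2] at hS1
      rw [hk1] at hS2
      have hsep : Separates S A B := by
        refine ⟨fun z hz => ?_, fun z hz => ?_⟩
        · by_contra hc
          have h1 := (hdA z).2 (hS2 z (by simpa using hc))
          rw [hcA, hz] at h1
          cases h1
        · by_contra hc
          have h1 := (hdB z).2 (hS1 z (by simpa using hc))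
          rw [hcB, hz] at h1
          cases h1
      have h2 := hred S hsep (List.replicate n true)
      rw [List.length_replicate] at h2
      refine hno ?_
      have hout : (reds r).out τ (Φ W) S (List.replicate n true) =
          orun g (join (join W (T W)) S) (List.replicate n true) (τ n + q.eval n) [] := by
        unfold TR.out
        rw [hr, List.length_replicate]
      rw [hout]
      refine ⟨fun h => h2.1 ?_, fun h => h2.2 ?_⟩
      · unfold side
        rw [decide_eq_true_iff, List.length_replicate]
        exact ⟨hn, h⟩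
      · unfold side
        rw [decide_eq_true_iff, List.length_replicate]
        exact ⟨hn, h⟩
    exact ⟨side k a true W, side k a false W, side_pair _ ha,
      fun h => hnt (turing_of_manyOne τ h), hnt⟩

end Pool.Agent.LD
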