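import Pool.Agent.Work.MP_46935e_lc.LD.Mach
import Pool.Agent.Work.MP_46935e_lc.S1.Fin
import Pool.Agent.Work.PT.Auto

/-!
# For every local operator there is an oracle with P = NP
-/

set_option autoImplicit false

noncomputable section

namespace Pool.Agent.LD

open Pool.Agent.RO Pool.Agent.PT Pool.Agent.Work.MP_46935e_lc N68a2faeb

/-! ### Codes -/

/-- The code of the input `x` of the machine number `i`, padded by `s`. -/
def cN (i s : ℕ) (x : Str) : Str :=
  List.replicate i true ++ false :: (List.replicate s true ++ false :: x)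

lemma length_cN (i s : ℕ) (x : Str) : (cN i s x).length = i + s + x.length + 2 := by
  simp only [cN, List.length_cons, List.length_append, List.length_replicate]
  omega

lemma cN_inj {i s : ℕ} {x : Str} {i' s' : ℕ} {x' : Str} (h : cN i s x = cN i' s' x') :
    i = i' ∧ s = s' ∧ x = x' := by
  obtain ⟨h1, h2⟩ := S1.unary_inj true i i' _ _ h
  exact ⟨h1, S1.unary_inj true s s' _ _ h2⟩

/-- Step function asking one question of type `c` about the padded code. -/
def cG (c : Bool) (i : ℕ) (P : Polynomial ℕ) (p : List Bool × List Bool) : Bool × List Bool :=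
  if p.2.isEmpty = true then (false, c :: cN i (P.eval p.1.length) p.1)
  else (true, [p.2.headD false])

lemma ptf_cG (c : Bool) (i : ℕ) (P : Polynomial ℕ) : PTF (cG c i P) := by
  have h1 : PTF (fun p : List Bool × List Bool => P.eval p.1.length) :=
    ptf_eval P (PTF.fst.length)
  unfold cG cN
  fun_prop

lemma ask_poly (O : List Bool → Bool) (c : Bool) (i : ℕ) (P : Polynomial ℕ) :
    IsPolyTimeRel O (fun x : List Bool => O (c :: cN i (P.eval x.length) x)) := by
  refine ⟨cG c i P, 2, of_ptf_P (ptf_cG c i P), fun x => ?_⟩
  rw [Polynomial.eval_ofNat]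
  show orun (cG c i P) O x 2 [] = some [O (c :: cN i (P.eval x.length) x)]
  have h1 : cG c i P (x, []) = (false, c :: cN i (P.eval x.length) x) := rfl
  have h2 : ∀ b, cG c i P (x, [b]) = (true, [b]) := fun b => rfl
  rw [orun, h1]
  simp only [Bool.false_eq_true, if_false, List.nil_append]
  rw [orun, h2]
  simp only [if_true]

/-- Locality of the oracle together with the operator. -/
lemma join_congr {T : World → World} (hT : IsLocal T) {G G' : World} {N : ℕ}
    (h : ∀ q : Str, q.length < N → G q = G' q) (q : Str) (hq : q.length ≤ N) :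
    join G (T G) q = join G' (T G') q := by
  match q with
  | [] => rfl
  | true :: w => exact h w (by rw [List.length_cons] at hq; omega)
  | false :: z => exact hT z G G' fun w hw => h w (by rw [List.length_cons] at hq; omega)

/-! ### The construction -/

theorem main_pos {T : World → World} (hT : IsLocal T) : ∃ W : World,
    ∀ L ∈ NPRel (join W (T W)), IsPolyTimeRel (join W (T W)) L := by
  classical
  obtain ⟨vd, hvd⟩ := exists_surjective_nat VD
  set upd : Str → World → Bool := fun z G => decide (∃ i s x, z = cN i s x ∧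
    (vd i).ub x.length < s ∧ acc (vd i) (join G (T G)) x) with hupd
  have hu : ∀ z, True → ∀ G G' : World, (∀ q : Str, q.length < z.length → G q = G' q) →
      upd z G = upd z G' := by
    intro z _ G G' hG
    have e : ∀ {G G' : World}, (∀ q : Str, q.length < z.length → G q = G' q) →
        (∃ i s x, z = cN i s x ∧ (vd i).ub x.length < s ∧ acc (vd i) (join G (T G)) x) →
        (∃ i s x, z = cN i s x ∧ (vd i).ub x.length < s ∧ acc (vd i) (join G' (T G')) x) := by
      rintro G G' hG ⟨i, s, x, h1, h2, h3⟩
      refine ⟨i, s, x, h1, h2, acc_of_agree (vd i) le_rfl (fun q hq => ?_) h3⟩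
      refine join_congr hT hG q ?_
      rw [h1, length_cN]
      omega
    have e2 : (∃ i s x, z = cN i s x ∧ (vd i).ub x.length < s ∧ acc (vd i) (join G (T G)) x) ↔
        (∃ i s x, z = cN i s x ∧ (vd i).ub x.length < s ∧ acc (vd i) (join G' (T G')) x) :=
      ⟨e hG, e fun q hq => (hG q hq).symm⟩
    simp only [hupd, e2]
  obtain ⟨W, -, hW⟩ := S1.exists_build (fun _ => True) upd hu (fun _ => true)
  refine ⟨W, fun L hL => ?_⟩
  obtain ⟨d, hd⟩ := exists_VD hL
  obtain ⟨i, hi⟩ := hvd d
  have key : ∀ x : Str, L x =
      join W (T W) (true :: cN i ((S1.ubP d + 1).eval x.length) x) := by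
    intro x
    rw [join_true, hW _ trivial]
    simp only [hupd]
    have e : (∃ i' s' x', cN i ((S1.ubP d + 1).eval x.length) x = cN i' s' x' ∧
        (vd i').ub x'.length < s' ∧ acc (vd i') (join W (T W)) x') ↔ L x = true := by
      rw [hd x]
      constructor
      · rintro ⟨i', s', x', h1, -, h3⟩
        obtain ⟨rfl, -, rfl⟩ := cN_inj h1
        rw [hi] at h3
        exact h3
      · intro h
        refine ⟨i, _, x, rfl, ?_, by rw [hi]; exact h⟩
        rw [hi, Polynomial.eval_add, Polynomial.eval_one, S1.ubP_eval]
        exact Nat.lt_succ_self _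
    cases hLx : L x with
    | true => exact (decide_eq_true (e.2 hLx)).symm
    | false => exact (decide_eq_false (fun h => by rw [e.1 h] at hLx; cases hLx)).symm
  have h1 := ask_poly (join W (T W)) true i (S1.ubP d + 1)
  have h2 : L = fun x => join W (T W) (true :: cN i ((S1.ubP d + 1).eval x.length) x) :=
    funext key
  rw [h2]
  exact h1

/-- If P = NP then there is a complete pair. -/
theorem complete_of_PeqNP {O : World} (h : ∀ L ∈ NPRel O, IsPolyTimeRel O L) :
    ∃ A B : DecisionProblem, IsDisjointCoNPPairRel O A B ∧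
      ∀ A' B' : DecisionProblem, IsDisjointCoNPPairRel O A' B' → PairReducibleRel O A' B' A B := by
  refine ⟨S1.oneL true, S1.oneL false, S1.pair0 O, fun A' B' h' => ?_⟩
  refine ⟨fun x => [B'ᶜ x], S1.singleton_poly (h _ h'.memB), fun x hx => ?_, fun x hx => ?_⟩
  · have h1 : B'ᶜ x = true := by
      show (!(B' x)) = true
      have := h'.disjoint x
      cases hB : B' x
      · rfl
      · exact absurd ⟨hx, hB⟩ this
    simp only [S1.oneL, decide_eq_true_eq]
    rw [h1]
  · have h1 : B'ᶜ x = false := by
      show (!(B' x)) = false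
      rw [hx]
      rfl
    simp only [S1.oneL, decide_eq_true_eq]
    rw [h1]

end Pool.Agent.LD
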