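import Pool.Agent.Work.MP_46935e_lc.LD.RP
import Pool.Agent.Work.MP_46935e_lc.LD.Neg

/-!
# The second theorem
-/

set_option autoImplicit false

namespace Pool.Agent.LD

open Pool.Agent.RO N68a2faeb Filter

theorem main_modP (p : ℕ) [hp : Fact p.Prime] (τ : ℕ → ℕ)
    (hτ : ∀ k : ℕ, ∀ᶠ n in atTop, τ n ^ k ≤ 2 ^ n) :
    ∃ O : List Bool → Bool, (∀ L ∈ ModPRel p O, IsPolyTimeRel O L) ∧
      (∀ L ∈ NPRel O, L ∈ RPRel O) ∧
      ∀ C D : DecisionProblem, IsDisjointCoNPPairRel O C D →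
        ∃ C' D' : DecisionProblem, IsDisjointCoNPPairRel O C' D' ∧
          ¬ PairReducibleRel O C' D' C D ∧ ¬ PairTuringReducibleRel O τ C' D' C D := by
  obtain ⟨T, hT, h⟩ := exists_selfT p
  obtain ⟨A, hA⟩ := main_neg hT hτ
  exact ⟨join A (T A), fun L hL => (h A L hL).poly, np_le_rp hp.out.two_le (h A), hA⟩

end Pool.Agent.LD
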