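import Pool.Agent.Work.MP_46935e_lc.LD.Defs2
import Pool.Agent.Work.MP_46935e_lc.LD.Pos

/-!
# The operator whose values count certificates modulo p relative to itself
-/

set_option autoImplicit false

open MvPolynomial

noncomputable section

namespace Pool.Agent.LD

open Pool.Agent.RO Pool.Agent.PT Pool.Agent.Work.MP_46935e_lc N68a2faeb

/-! ### Polynomials of runs -/

/-- The polynomial of acceptance in `t` rounds. -/
def runP {p : ℕ} {α : Type} (g : α × List Bool → Bool × List Bool) (x : α)
    (R : Str → MvPolynomial Str (ZMod p)) : ℕ → List Bool → MvPolynomial Str (ZMod p)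
  | 0, _ => 0
  | t + 1, a => if (g (x, a)).1 = true then (if (g (x, a)).2 = [true] then 1 else 0)
      else R (g (x, a)).2 * runP g x R t (a ++ [true]) +
        (1 - R (g (x, a)).2) * runP g x R t (a ++ [false])

lemma runP_deg {p : ℕ} [Fact p.Prime] {α : Type} (g : α × List Bool → Bool × List Bool) (x : α)
    (R : Str → MvPolynomial Str (ZMod p)) (D : ℕ) (hR : ∀ q, (R q).totalDegree ≤ D) (t : ℕ) :
    ∀ a, (runP g x R t a).totalDegree ≤ t * D := by
  induction t with
  | zero => intro a; simp [runP]
  | succ t ih =>
    intro a
    rw [runP]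
    split_ifs
    · rw [totalDegree_one]; exact Nat.zero_le _
    · rw [totalDegree_zero]; exact Nat.zero_le _
    · have e : (t + 1) * D = D + t * D := by ring
      rw [e]
      refine (totalDegree_add _ _).trans (max_le ?_ ?_)
      · exact (totalDegree_mul _ _).trans (add_le_add (hR _) (ih _))
      · refine (totalDegree_mul _ _).trans (add_le_add ?_ (ih _))
        refine (totalDegree_sub _ _).trans (max_le ?_ (hR _))
        rw [totalDegree_one]; exact Nat.zero_le _

lemma runP_supp {p : ℕ} {α : Type} (g : α × List Bool → Bool × List Bool) (x : α)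
    (R : Str → MvPolynomial Str (ZMod p)) (s : Set Str) (hR : ∀ q, R q ∈ supported (ZMod p) s)
    (t : ℕ) : ∀ a, runP g x R t a ∈ supported (ZMod p) s := by
  induction t with
  | zero => intro a; exact zero_mem _
  | succ t ih =>
    intro a
    rw [runP]
    split_ifs
    · exact one_mem _
    · exact zero_mem _
    · exact add_mem (mul_mem (hR _) (ih _)) (mul_mem (sub_mem (one_mem _) (hR _)) (ih _))

lemma runP_eval {p : ℕ} {α : Type} (g : α × List Bool → Bool × List Bool) (x : α)
    (R : Str → MvPolynomial Str (ZMod p)) (O : World) (v : Str → ZMod p) (t : ℕ) :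
    ∀ a, (∀ q ∈ oqs g O x t a, eval v (R q) = bit01 p (O q)) →
      eval v (runP g x R t a) = if orun g O x t a = some [true] then 1 else 0 := by
  induction t with
  | zero => intro a _; simp [runP, orun]
  | succ t ih =>
    intro a h
    rw [runP, orun]
    rw [oqs] at h
    split_ifs at h ⊢ with h1 h2 h3 h4 h5 h6
    · exact map_one _
    · exact absurd (by rw [h2]) h3
    · exact absurd (Option.some.inj h4) h2
    · exact map_zero _
    all_goals
      have hq := h _ List.mem_cons_self
      have hih := ih (a ++ [O (g (x, a)).2]) (fun q hq => h q (List.mem_cons_of_mem _ hq))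
      rw [map_add, map_mul, map_mul, map_sub, map_one, hq]
      cases hO : O (g (x, a)).2
      · rw [hO] at hih
        simp only [bit01, Bool.false_eq_true, if_false, zero_mul, sub_zero, one_mul, zero_add]
        rw [hih]
        simp_all
      · rw [hO] at hih
        simp only [bit01, if_true, sub_self, zero_mul, one_mul, add_zero]
        rw [hih]
        simp_all

/-! ### Counting certificates -/

/-- The accepted certificates. -/
def crt (d : VD) (O : World) (x : Str) : Set Str :=
  {w | w.length ≤ d.p.eval x.length ∧
    orun d.g O (x, w) (d.q.eval (N487b59b3.bitEncode (x, w)).length) [] = some [true]}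

lemma crt_congr (d : VD) {O O' : World} {x : Str}
    (h : ∀ q : Str, q.length ≤ d.ub x.length → O q = O' q) : crt d O x = crt d O' x := by
  ext w
  refine and_congr_right fun hw => ?_
  rw [(orun_congr d.g (x, w) _ [] (fun q hq => h q (d.query_le le_rfl hw O q hq))).1]

/-- Candidates for certificates. -/
def cands (d : VD) (x : Str) : Finset Str := lows (d.p.eval x.length + 1)

lemma mem_cands {d : VD} {x w : Str} : w ∈ cands d x ↔ w.length ≤ d.p.eval x.length := by
  rw [cands, mem_lows]
  omega

lemma crt_ncard (p : ℕ) (d : VD) (O : World) (x : Str) : ((crt d O x).ncard : ZMod p) =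
    ∑ w ∈ cands d x,
      if orun d.g O (x, w) (d.q.eval (N487b59b3.bitEncode (x, w)).length) [] = some [true]
        then 1 else 0 := by
  classical
  have h1 : crt d O x = ((cands d x).filter fun w =>
      orun d.g O (x, w) (d.q.eval (N487b59b3.bitEncode (x, w)).length) [] = some [true] :
        Finset Str) := by
    ext w
    simp only [crt, Set.mem_setOf_eq, Finset.coe_filter, mem_cands]
  rw [h1, Set.ncard_coe_finset, Finset.sum_boole]

/-- The polynomial of the count of certificates modulo `p`. -/
lemma exists_cntP (p : ℕ) [Fact p.Prime] (d : VD) (x : Str) (R : Str → MvPolynomial Str (ZMod p))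
    (D : ℕ) (s : Set Str) (hD : ∀ q, (R q).totalDegree ≤ D)
    (hs : ∀ q, R q ∈ supported (ZMod p) s) :
    ∃ P : MvPolynomial Str (ZMod p), P.totalDegree ≤ (p - 1) * (d.rb x.length * D) ∧
      P ∈ supported (ZMod p) s ∧ ∀ (O : World) (v : Str → ZMod p),
        (∀ q : Str, q.length ≤ d.ub x.length → eval v (R q) = bit01 p (O q)) →
        eval v P = open Classical in bit01 p (decide (¬ p ∣ (crt d O x).ncard)) := by
  classical
  set F : Str → MvPolynomial Str (ZMod p) := fun w =>
    runP d.g (x, w) R (d.q.eval (N487b59b3.bitEncode (x, w)).length) [] with hF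
  refine ⟨(∑ w ∈ cands d x, F w) ^ (p - 1), ?_, ?_, fun O v hv => ?_⟩
  · refine (totalDegree_pow _ _).trans (Nat.mul_le_mul_left _ ?_)
    refine totalDegree_finsetSum_le fun w hw => ?_
    refine (runP_deg d.g (x, w) R D hD _ []).trans (Nat.mul_le_mul_right _ ?_)
    exact d.rounds_le le_rfl (mem_cands.1 hw)
  · exact pow_mem (sum_mem fun w _ => runP_supp d.g (x, w) R s hs _ []) _
  · have h1 : eval v (∑ w ∈ cands d x, F w) = ((crt d O x).ncard : ZMod p) := by
      rw [map_sum, crt_ncard]
      refine Finset.sum_congr rfl fun w hw => ?_
      exact runP_eval d.g (x, w) R O v _ [] fun q hq =>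
        hv q (d.query_le le_rfl (mem_cands.1 hw) O q hq)
    rw [map_pow, h1]
    have hp1 : p - 1 ≠ 0 := by have := (Fact.out : p.Prime).two_le; omega
    by_cases h2 : p ∣ (crt d O x).ncard
    · rw [(ZMod.natCast_eq_zero_iff _ _).2 h2, zero_pow hp1]
      simp [bit01, h2]
    · rw [ZMod.pow_card_sub_one_eq_one (fun h => h2 ((ZMod.natCast_eq_zero_iff _ _).1 h))]
      simp [bit01, h2]

/-! ### The operator -/

/-- Padding. -/
def padP (p : ℕ) (d : VD) : Polynomial ℕ :=
  Polynomial.C (p - 1) * (S1.rbP d * (S1.ubP d + 1)) + S1.ubP d + 1

lemma padP_eval (p : ℕ) (d : VD) (n : ℕ) :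
    (padP p d).eval n = (p - 1) * (d.rb n * (d.ub n + 1)) + d.ub n + 1 := by
  unfold padP
  simp only [Polynomial.eval_add, Polynomial.eval_mul, Polynomial.eval_C, Polynomial.eval_one,
    S1.rbP_eval, S1.ubP_eval]

open Classical in
/-- The rule of the operator. -/
def selfU (p : ℕ) (vd : ℕ → VD) (A : World) (z : Str) (G : World) : Bool :=
  decide (∃ i s x, z = cN i s x ∧ (padP p (vd i)).eval x.length ≤ s ∧
    ¬ p ∣ (crt (vd i) (join A G) x).ncard)

lemma join_congr' {A G G' : World} {N : ℕ} (h : ∀ q : Str, q.length < N → G q = G' q)
    (q : Str) (hq : q.length ≤ N) : join A G q = join A G' q := by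
  match q with
  | [] => rfl
  | true :: w => rfl
  | false :: z => exact h z (by rw [List.length_cons] at hq; omega)

lemma selfU_congr (p : ℕ) (vd : ℕ → VD) (A : World) (z : Str) {G G' : World}
    (hG : ∀ q : Str, q.length < z.length → G q = G' q) : selfU p vd A z G = selfU p vd A z G' := by
  classical
  have e : (∃ i s x, z = cN i s x ∧ (padP p (vd i)).eval x.length ≤ s ∧
      ¬ p ∣ (crt (vd i) (join A G) x).ncard) ↔ (∃ i s x, z = cN i s x ∧
      (padP p (vd i)).eval x.length ≤ s ∧ ¬ p ∣ (crt (vd i) (join A G') x).ncard) := by
    refine exists_congr fun i => exists_congr fun s => exists_congr fun x =>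
      and_congr_right fun h1 => and_congr_right fun h2 => ?_
    rw [crt_congr (vd i) (O := join A G) (O' := join A G') (x := x) (fun q hq => ?_)]
    refine join_congr' hG q ?_
    rw [h1, length_cN]
    rw [padP_eval] at h2
    omega
  unfold selfU
  simp only [e]

/-- The operator. -/
def selfT (p : ℕ) (vd : ℕ → VD) (A : World) : World :=
  (S1.exists_build (fun _ => True) (selfU p vd A)
    (fun z _ _ _ h => selfU_congr p vd A z h) (fun _ => true)).choose

lemma selfT_eq (p : ℕ) (vd : ℕ → VD) (A : World) (z : Str) :
    selfT p vd A z = selfU p vd A z (selfT p vd A) :=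
  (S1.exists_build (fun _ => True) (selfU p vd A)
    (fun z _ _ _ h => selfU_congr p vd A z h) (fun _ => true)).choose_spec.2 z trivial

theorem selfT_low (p : ℕ) [Fact p.Prime] (vd : ℕ → VD) : IsLowDegree p (selfT p vd) := by
  classical
  -- strong induction on the length of the query
  have key : ∀ (N : ℕ) (z : Str), z.length < N → ∃ P : MvPolynomial Str (ZMod p),
      P.totalDegree ≤ z.length + 1 ∧ P ∈ supported (ZMod p) {w : Str | w.length ≤ z.length} ∧
      ∀ A : World, eval (fun w => bit01 p (A w)) P = bit01 p (selfT p vd A z) := by
    intro N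
    induction N with
    | zero => intro z hz; exact absurd hz (Nat.not_lt_zero _)
    | succ N ih =>
      intro z hz
      by_cases hc : ∃ i s x, z = cN i s x ∧ (padP p (vd i)).eval x.length ≤ s
      · obtain ⟨i, s, x, h1, h2⟩ := hc
        have hlz : z.length = i + s + x.length + 2 := by rw [h1, length_cN]
        have h2' := h2
        rw [padP_eval] at h2'
        choose! P0 hP1 hP2 hP3 using ih
        set U := (vd i).ub x.length with hU
        set R : Str → MvPolynomial Str (ZMod p) := fun q =>
          if q.length ≤ U then (match q with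
            | [] => 0
            | true :: w => X w
            | false :: z' => P0 z') else 0 with hR
        have hRd : ∀ q, (R q).totalDegree ≤ U + 1 := by
          intro q
          rw [hR]
          simp only
          split_ifs with hq
          · match q with
            | [] => rw [totalDegree_zero]; exact Nat.zero_le _
            | true :: w =>
              rw [totalDegree_X]
              omega
            | false :: z' =>
              rw [List.length_cons] at hq
              have h7 := hP1 z' (by omega)
              show (P0 z').totalDegree ≤ U + 1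
              omega
          · rw [totalDegree_zero]; exact Nat.zero_le _
        have hRs : ∀ q, R q ∈ supported (ZMod p) {w : Str | w.length ≤ z.length} := by
          intro q
          rw [hR]
          simp only
          split_ifs with hq
          · match q with
            | [] => exact zero_mem _
            | true :: w =>
              rw [List.length_cons] at hq
              refine X_mem_supported.2 ?_
              rw [Set.mem_setOf_eq]
              omega
            | false :: z' =>
              rw [List.length_cons] at hq
              refine supported_mono ?_ (hP2 z' (by omega))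
              intro w hw
              rw [Set.mem_setOf_eq] at hw ⊢
              omega
          · exact zero_mem _
        obtain ⟨P, h3, h4, h5⟩ := exists_cntP p (vd i) x R (U + 1)
          {w : Str | w.length ≤ z.length} hRd hRs
        refine ⟨P, h3.trans (by omega), h4, fun A => ?_⟩
        rw [h5 (join A (selfT p vd A)) _ ?_, selfT_eq]
        · congr 1
          unfold selfU
          rw [decide_eq_decide]
          constructor
          · intro h
            exact ⟨i, s, x, h1, h2, h⟩
          · rintro ⟨i', s', x', h6, -, h7⟩
            obtain ⟨rfl, rfl, rfl⟩ := cN_inj (h1.symm.trans h6)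
            exact h7
        · intro q hq
          rw [hR]
          simp only
          rw [if_pos hq]
          match q with
          | [] =>
            rw [map_zero]
            rfl
          | true :: w =>
            rw [eval_X]
            rfl
          | false :: z' =>
            rw [List.length_cons] at hq
            exact hP3 z' (by omega) A
      · refine ⟨0, by rw [totalDegree_zero]; exact Nat.zero_le _, zero_mem _, fun A => ?_⟩
        rw [map_zero, selfT_eq]
        have h6 : selfU p vd A z (selfT p vd A) = false := by
          unfold selfU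
          rw [decide_eq_false_iff_not]
          rintro ⟨i, s, x, h1, h2, -⟩
          exact hc ⟨i, s, x, h1, h2⟩
        rw [h6]
        rfl
  refine ⟨Polynomial.X + 1, fun q => ?_⟩
  obtain ⟨P, h1, h2, h3⟩ := key (q.length + 1) q (Nat.lt_succ_self _)
  refine ⟨P, ?_, fun w hw => (mem_supported.1 h2) hw, h3⟩
  rw [Polynomial.eval_add, Polynomial.eval_X, Polynomial.eval_one]
  exact h1

/-- `L` is decided by one question. -/
def OneQ (O : World) (L : Str → Bool) : Prop := ∃ f : Str → Str, PTF f ∧ ∀ x, L x = O (f x)

/-- Step function asking one question. -/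
def oG (f : Str → Str) (p : List Bool × List Bool) : Bool × List Bool :=
  if p.2.isEmpty = true then (false, f p.1) else (true, [p.2.headD false])

lemma OneQ.poly {O : World} {L : Str → Bool} (h : OneQ O L) : IsPolyTimeRel O L := by
  obtain ⟨f, hf, h⟩ := h
  have hg : PTF (oG f) := by
    have h1 : PTF (fun p : List Bool × List Bool => f p.1) := hf.comp PTF.fst
    unfold oG
    fun_prop
  refine ⟨oG f, 2, of_ptf_P hg, fun x => ?_⟩
  rw [Polynomial.eval_ofNat]
  show orun (oG f) O x 2 [] = some [L x]
  have h1 : oG f (x, []) = (false, f x) := rfl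
  have h2 : ∀ b, oG f (x, [b]) = (true, [b]) := fun b => rfl
  rw [orun, h1]
  simp only [Bool.false_eq_true, if_false, List.nil_append]
  rw [orun, h2]
  simp only [if_true]
  rw [h x]

lemma ptf_code (c : Bool) (i : ℕ) (P : Polynomial ℕ) :
    PTF (fun x : Str => c :: cN i (P.eval x.length) x) := by
  have h1 : PTF (fun x : Str => P.eval x.length) := ptf_eval P (PTF.id.length)
  unfold cN
  fun_prop

theorem selfT_modP (p : ℕ) (vd : ℕ → VD) (hvd : Function.Surjective vd) (A : World) :
    ∀ L ∈ ModPRel p (join A (selfT p vd A)), OneQ (join A (selfT p vd A)) L := by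
  classical
  set O := join A (selfT p vd A) with hO
  rintro L ⟨pl, V, ⟨g, q, hg, h1⟩, h2⟩
  obtain ⟨i, hi⟩ := hvd ⟨pl, g, q, hg⟩
  have key : ∀ x : Str, L x = O (false :: cN i ((padP p (vd i)).eval x.length) x) := by
    intro x
    have e0 : O (false :: cN i ((padP p (vd i)).eval x.length) x) =
        selfU p vd A (cN i ((padP p (vd i)).eval x.length) x) (selfT p vd A) := by
      rw [hO, join_false]
      exact selfT_eq _ _ _ _
    have e1 : crt (vd i) O x = {w : Str | w.length ≤ pl.eval x.length ∧ V (x, w) = true} := by
      ext w
      rw [hi]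
      refine and_congr_right fun _ => ?_
      show orun g O (x, w) (q.eval (N487b59b3.bitEncode (x, w)).length) [] = some [true] ↔ _
      rw [h1 (x, w)]
      show some [V (x, w)] = some [true] ↔ V (x, w) = true
      simp
    have e2 : selfU p vd A (cN i ((padP p (vd i)).eval x.length) x) (selfT p vd A) = true ↔
        L x = true := by
      rw [h2 x, ← e1]
      unfold selfU
      rw [decide_eq_true_iff]
      constructor
      · rintro ⟨i', s', x', h3, -, h4⟩
        obtain ⟨rfl, -, rfl⟩ := cN_inj h3
        exact h4
      · intro h
        exact ⟨i, _, x, rfl, le_rfl, h⟩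
    rw [e0]
    exact Bool.eq_iff_iff.2 e2.symm
  exact ⟨_, ptf_code false i (padP p (vd i)), key⟩

/-- An oracle with `Mod_p P = P`. -/
theorem exists_selfT (p : ℕ) [Fact p.Prime] : ∃ T : World → World, IsLowDegree p T ∧
    ∀ A : World, ∀ L ∈ ModPRel p (join A (T A)), OneQ (join A (T A)) L := by
  obtain ⟨vd, hvd⟩ := exists_surjective_nat VD
  exact ⟨selfT p vd, selfT_low p vd, selfT_modP p vd hvd⟩

end Pool.Agent.LD
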