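import Pool.Agent.Work.MP_46935e_lc.LD.RPw
import Pool.Agent.Work.MP_46935e_lc.LD.Self

/-!
# NP = RP relative to oracles which answer questions of Mod_p P
-/

set_option autoImplicit false

open Finset

noncomputable section

namespace Pool.Agent.LD

open Pool.Agent.RO Pool.Agent.PT Pool.Agent.Work.MP_46935e_lc N68a2faeb

/-- Code of a triple. -/
def enc3 (x r : Str) (v : ℕ) : Str := dl x ++ (dl r ++ List.replicate v true)

lemma dec_enc3 (x r : Str) (v : ℕ) : (dec2 (enc3 x r v)).1 = x ∧
    (dec2 (dec2 (enc3 x r v)).2).1 = r ∧ (dec2 (dec2 (enc3 x r v)).2).2.length = v := by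
  unfold enc3
  rw [dec2_dl, dec2_dl]
  simp

lemma length_le_enc3 (x r : Str) (v : ℕ) : x.length ≤ (enc3 x r v).length := by
  unfold enc3
  rw [List.length_append, N487b59b3.length_delimit]
  omega

lemma dec2_length (z : Str) : (dec2 z).1.length ≤ z.length ∧ (dec2 z).2.length ≤ z.length := by
  have key : ∀ (l : List Bool) (s : ℕ × (List Bool × List Bool)),
      (l.foldl dstep s).2.1.length ≤ s.2.1.length + l.length ∧
      (l.foldl dstep s).2.2.length ≤ s.2.2.length + l.length := by
    intro l
    induction l with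
    | nil => intro s; simp
    | cons b l ih =>
      intro s
      rw [List.foldl_cons, List.length_cons]
      obtain ⟨h1, h2⟩ := ih (dstep s b)
      have h3 : (dstep s b).2.1.length ≤ s.2.1.length + 1 ∧
          (dstep s b).2.2.length ≤ s.2.2.length + 1 := by
        unfold dstep
        split_ifs <;> simp
      omega
  have := key z (0, [], [])
  simpa [dec2] using this

variable (pl : Polynomial ℕ)

/-- The test. -/
def tst (z w : Str) : Bool :=
  decide (w.length ≤ pl.eval (dec2 z).1.length) &&
    decide (wS (pl.eval (dec2 z).1.length + 1) (dec2 (dec2 z).2).1 w =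
      (dec2 (dec2 z).2).2.length)

lemma ptf_tst : PTF (fun p : Str × Str => tst pl p.1 p.2) := by
  have h1 : PTF (fun p : Str × Str => (dec2 p.1).1) := PTF.fst.comp (ptf_dec2 PTF.fst)
  have h2 : PTF (fun p : Str × Str => (dec2 p.1).2) := PTF.snd.comp (ptf_dec2 PTF.fst)
  have h3 : PTF (fun p : Str × Str => (dec2 (dec2 p.1).2).1) := PTF.fst.comp (ptf_dec2 h2)
  have h4 : PTF (fun p : Str × Str => (dec2 (dec2 p.1).2).2) := PTF.snd.comp (ptf_dec2 h2)
  have h5 : PTF (fun p : Str × Str => pl.eval (dec2 p.1).1.length) := ptf_eval pl h1.length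
  have h6 : PTF (fun p : Str × Str =>
      wS (pl.eval (dec2 p.1).1.length + 1) (dec2 (dec2 p.1).2).1 p.2) :=
    ptf_wS.comp ((h5.add (PTF.const 1)).pair (h3.pair PTF.snd))
  unfold tst
  exact PTF.and (PTF.le PTF.snd.length h5) (PTF.eq h6 h4.length)

/-- Step function for testing and verifying. -/
def tG (g : (List Bool × List Bool) × List Bool → Bool × List Bool)
    (p : (List Bool × List Bool) × List Bool) : Bool × List Bool :=
  if tst pl p.1.1 p.1.2 = true then g (((dec2 p.1.1).1, p.1.2), p.2) else (true, [false])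

lemma ptf_tG {g : (List Bool × List Bool) × List Bool → Bool × List Bool} (hg : PTF g) :
    PTF (tG pl g) := by
  have h1 : PTF (fun p : (List Bool × List Bool) × List Bool => tst pl p.1.1 p.1.2) :=
    (ptf_tst pl).comp PTF.fst
  have h2 : PTF (fun p : (List Bool × List Bool) × List Bool => (dec2 p.1.1).1) :=
    PTF.fst.comp (ptf_dec2 (PTF.fst.fst'))
  have h3 : PTF (fun p : (List Bool × List Bool) × List Bool =>
      g (((dec2 p.1.1).1, p.1.2), p.2)) :=
    hg.comp ((h2.pair (PTF.fst.snd')).pair PTF.snd)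
  unfold tG
  exact PTF.ite (p := fun p : (List Bool × List Bool) × List Bool => tst pl p.1.1 p.1.2 = true)
    (h1.eq (PTF.const true)) h3 (PTF.const _)

lemma orun_tG (g : (List Bool × List Bool) × List Bool → Bool × List Bool) (O : World)
    (z w : Str) (h : tst pl z w = true) (t : ℕ) : ∀ a,
      orun (tG pl g) O (z, w) t a = orun g O ((dec2 z).1, w) t a := by
  induction t with
  | zero => intro a; rfl
  | succ t ih =>
    intro a
    have e : tG pl g ((z, w), a) = g (((dec2 z).1, w), a) := by
      unfold tG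
      simp only [h, if_true]
    rw [orun, orun, e]
    split_ifs
    · rfl
    · exact ih _

/-- Verifier with test. -/
def tV (V : List Bool × List Bool → Bool) (p : List Bool × List Bool) : Bool :=
  tst pl p.1 p.2 && V ((dec2 p.1).1, p.2)

lemma tV_poly {O : World} {V : List Bool × List Bool → Bool} (hV : IsPolyTimeRel O V) :
    IsPolyTimeRel O (tV pl V) := by
  obtain ⟨g, q, hg, h⟩ := hV
  refine ⟨tG pl g, q + 1, of_ptf_T (ptf_tG pl (ptf_of_T hg)), fun p => ?_⟩
  obtain ⟨z, w⟩ := p
  show orun (tG pl g) O (z, w) _ [] = some [tV pl V (z, w)]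
  by_cases ht : tst pl z w = true
  · have h1 : orun (tG pl g) O (z, w)
        (q.eval (N487b59b3.bitEncode ((dec2 z).1, w)).length) [] = some [V ((dec2 z).1, w)] := by
      rw [orun_tG pl g O z w ht]
      exact h ((dec2 z).1, w)
    have h2 : tV pl V (z, w) = V ((dec2 z).1, w) := by
      unfold tV
      simp only [ht, Bool.true_and]
    rw [h2]
    refine orun_mono _ _ _ _ _ _ _ ?_ h1
    rw [Polynomial.eval_add, Polynomial.eval_one]
    refine (eval_mono q ?_).trans (Nat.le_succ _)
    rw [length_bitEncode_pair, length_bitEncode_pair]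
    have := (dec2_length z).1
    omega
  · have h2 : tV pl V (z, w) = false := by
      unfold tV
      simp only [eq_false_of_ne_true ht, Bool.false_and]
    have e : tG pl g ((z, w), []) = (true, [false]) := by
      unfold tG
      simp only [ht]
      rfl
    have e0 : ∀ T, orun (tG pl g) O (z, w) (T + 1) [] = some [false] := by
      intro T
      rw [orun, e]
      rfl
    rw [h2, Polynomial.eval_add, Polynomial.eval_one]
    exact e0 _

/-- The random verifier. -/
def rV (f : Str → Str) (O : World) (p : List Bool × List Bool) : Bool :=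
  (List.range (8 * (pl.eval p.1.length + 1) ^ 2 + 1)).any (fun v => O (f (enc3 p.1 p.2 v)))

/-- Its step function. -/
def rG (f : Str → Str) (p : (List Bool × List Bool) × List Bool) : Bool × List Bool :=
  if p.2.length < 8 * (pl.eval p.1.1.length + 1) ^ 2 + 1 then
    (false, f (enc3 p.1.1 p.1.2 p.2.length))
  else (true, [p.2.any (fun b => b)])

lemma ptf_enc3 : PTF (fun p : (Str × Str) × ℕ => enc3 p.1.1 p.1.2 p.2) := by
  unfold enc3
  exact PTF.append (ptf_dl (PTF.fst.fst')) (PTF.append (ptf_dl (PTF.fst.snd'))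
    (PTF.replicate PTF.snd (PTF.const true)))

lemma ptf_rG {f : Str → Str} (hf : PTF f) : PTF (rG pl f) := by
  have h1 : PTF (fun p : (List Bool × List Bool) × List Bool => pl.eval p.1.1.length) :=
    ptf_eval pl (PTF.length (PTF.fst.fst'))
  have h2 : PTF (fun p : (List Bool × List Bool) × List Bool =>
      f (enc3 p.1.1 p.1.2 p.2.length)) :=
    hf.comp (ptf_enc3.comp (PTF.fst.pair PTF.snd.length))
  have h3 : PTF (fun p : (List Bool × List Bool) × List Bool =>
      8 * (pl.eval p.1.1.length + 1) ^ 2 + 1) := by fun_prop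
  have h4 : PTF (fun p : (List Bool × List Bool) × List Bool => [p.2.any (fun b => b)]) := by
    fun_prop
  unfold rG
  exact PTF.ite (PTF.lt PTF.snd.length h3) ((PTF.const false).pair h2)
    ((PTF.const true).pair h4)

lemma rV_poly {f : Str → Str} (hf : PTF f) (O : World) : IsPolyTimeRel O (rV pl f O) := by
  refine ⟨rG pl f, 8 * (pl + 1) ^ 2 + 2, of_ptf_T (ptf_rG pl hf), fun p => ?_⟩
  obtain ⟨x, r⟩ := p
  show orun (rG pl f) O (x, r) _ [] = some [rV pl f O (x, r)]
  set N := 8 * (pl.eval x.length + 1) ^ 2 + 1 with hN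
  have h1 : orun (rG pl f) O (x, r) (1 + N) [] = some [rV pl f O (x, r)] := by
    rw [orun_phase (rG pl f) O (x, r) [] (fun k => f (enc3 x r k)) N 1 (fun k hk => ?_)]
    · rw [List.nil_append, orun]
      have e : rG pl f ((x, r), (List.range N).map (fun j => O (f (enc3 x r j)))) =
          (true, [((List.range N).map (fun j => O (f (enc3 x r j)))).any (fun b => b)]) := by
        unfold rG
        simp only [List.length_map, List.length_range, ← hN, lt_irrefl, if_false]
      rw [e]
      simp only [if_true]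
      rw [List.any_map]
      rfl
    · unfold rG
      simp only [List.nil_append, List.length_map, List.length_range, ← hN, hk, if_true]
  refine orun_mono _ _ _ _ _ _ _ ?_ h1
  have h2 : x.length ≤ (N487b59b3.bitEncode (x, r)).length := by
    rw [length_bitEncode_pair]; omega
  have h3 := eval_mono (8 * (pl + 1) ^ 2 + 2) h2
  refine le_trans (le_of_eq ?_) h3
  simp only [Polynomial.eval_add, Polynomial.eval_mul, Polynomial.eval_pow, Polynomial.eval_one,
    Polynomial.eval_ofNat]
  omega

/-- NP = RP. -/
theorem np_le_rp {p : ℕ} (hp : 2 ≤ p) {O : World} (H : ∀ L ∈ ModPRel p O, OneQ O L) :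
    ∀ L ∈ NPRel O, L ∈ RPRel O := by
  classical
  rintro L ⟨pl, V, hV, hL⟩
  -- the counting language
  set L' : DecisionProblem := fun z => decide (¬ p ∣ Set.ncard {w : List Bool |
    w.length ≤ pl.eval z.length ∧ tV pl V (z, w) = true}) with hL'
  obtain ⟨f, hf, hfL⟩ := H L' ⟨pl, tV pl V, tV_poly pl hV, fun z => by
    rw [hL']
    exact decide_eq_true_iff⟩
  have hrV : ∀ x r, rV pl f O (x, r) = true ↔
      ∃ v < 8 * (pl.eval x.length + 1) ^ 2 + 1, L' (enc3 x r v) = true := by
    intro x r
    unfold rV
    rw [List.any_eq_true]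
    constructor
    · rintro ⟨v, hv, h⟩
      exact ⟨v, List.mem_range.1 hv, by rw [hfL]; exact h⟩
    · rintro ⟨v, hv, h⟩
      exact ⟨v, List.mem_range.2 hv, by rw [← hfL]; exact h⟩
  refine ⟨8 * (pl + 1) ^ 2, rV pl f O, rV_poly pl hf O, fun x => ⟨fun hx => ?_, fun hx r _ => ?_⟩⟩
  · set m := pl.eval x.length with hm
    set M := m + 1 with hM
    have hM1 : 1 ≤ M := by omega
    have hq : (8 * (pl + 1) ^ 2 : Polynomial ℕ).eval x.length = 8 * M ^ 2 := by
      simp only [Polynomial.eval_add, Polynomial.eval_mul, Polynomial.eval_pow,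
        Polynomial.eval_one, Polynomial.eval_ofNat]
      rfl
    rw [hq]
    -- the certificates
    set Cs : Finset Str := (lows M).filter (fun w => V (x, w) = true) with hCs
    have hCsm : ∀ w, w ∈ Cs ↔ w.length ≤ m ∧ V (x, w) = true := by
      intro w
      rw [hCs, Finset.mem_filter, mem_lows]
      constructor
      · rintro ⟨h1, h2⟩
        exact ⟨by omega, h2⟩
      · rintro ⟨h1, h2⟩
        exact ⟨by omega, h2⟩
    obtain ⟨w₀, hw₀⟩ := (hL x).1 hx
    have hw₀' : w₀ ∈ Cs := (hCsm w₀).2 hw₀
    have h1 := iso_strings hM1 (Cs.image (chi M)) ⟨_, Finset.mem_image_of_mem _ hw₀'⟩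
    refine h1.trans (Nat.mul_le_mul_left 2 ?_)
    set G : Finset (Fin M → (Fin (8 * M) → Bool)) :=
      {ρ : Fin M → (Fin (8 * M) → Bool) | ∃ β ∈ Cs.image (chi M), ∀ γ ∈ Cs.image (chi M),
        γ ≠ β → wgt (vv M) ρ β < wgt (vv M) ρ γ} with hG
    have hfin : Set.Finite {r : List Bool | r.length = 8 * M ^ 2 ∧ rV pl f O (x, r) = true} := by
      refine Set.Finite.subset (lows (8 * M ^ 2 + 1)).finite_toSet ?_
      rintro r ⟨hr, -⟩
      exact Finset.mem_coe.2 (mem_lows.2 (by omega))
    have hcard : (G.image strOf).card = G.card :=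
      Finset.card_image_of_injective _ fun ρ ρ' h => strOf_inj h
    rw [← hcard, ← Set.ncard_coe_finset]
    refine Set.ncard_le_ncard ?_ hfin
    intro r hr
    obtain ⟨ρ, hρ, rfl⟩ := Finset.mem_image.1 (Finset.mem_coe.1 hr)
    obtain ⟨β, hβ, hmin⟩ := (Finset.mem_filter.1 hρ).2
    obtain ⟨w, hw, rfl⟩ := Finset.mem_image.1 hβ
    have hwm := (hCsm w).1 hw
    refine ⟨?_, ?_⟩
    · rw [length_strOf]
      ring
    · rw [hrV]
      refine ⟨wS M (strOf ρ) w, Nat.lt_succ_of_le (wS_le M _ _), ?_⟩
      set z := enc3 x (strOf ρ) (wS M (strOf ρ) w) with hz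
      obtain ⟨d1, d2, d3⟩ := dec_enc3 x (strOf ρ) (wS M (strOf ρ) w)
      rw [← hz] at d1 d2 d3
      have hset : {w' : List Bool | w'.length ≤ pl.eval z.length ∧ tV pl V (z, w') = true} =
          {w} := by
        ext w'
        rw [Set.mem_ofPred_eq, Set.mem_singleton_iff]
        have ht : tV pl V (z, w') = true ↔ w'.length ≤ m ∧
            wS M (strOf ρ) w' = wS M (strOf ρ) w ∧ V (x, w') = true := by
          unfold tV tst
          simp only [d1, d2, d3, Bool.and_eq_true, decide_eq_true_eq, ← hm, ← hM, and_assoc]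
        rw [ht]
        constructor
        · rintro ⟨-, h3, h4, h5⟩
          have hw' : w' ∈ Cs := (hCsm w').2 ⟨h3, h5⟩
          by_contra hne
          have h6 : chi M w' ≠ chi M w := by
            intro h7
            have h8 := hwm.1
            exact hne (chi_inj (by omega) (by omega) h7)
          have h7 := hmin _ (Finset.mem_image_of_mem _ hw') h6
          rw [← wS_strOf hM1, ← wS_strOf hM1] at h7
          omega
        · rintro rfl
          refine ⟨hwm.1.trans (eval_mono pl ?_), hwm.1, rfl, hwm.2⟩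
          exact length_le_enc3 _ _ _
      rw [hL']
      simp only [decide_eq_true_iff]
      rw [hset, Set.ncard_singleton]
      intro h
      have := Nat.le_of_dvd one_pos h
      omega
  · rw [← Bool.not_eq_true, hrV]
    rintro ⟨v, -, h⟩
    rw [hL'] at h
    simp only [decide_eq_true_iff] at h
    apply h
    have hset : {w' : List Bool | w'.length ≤ pl.eval (enc3 x r v).length ∧
        tV pl V (enc3 x r v, w') = true} = ∅ := by
      rw [Set.eq_empty_iff_forall_notMem]
      rintro w' ⟨-, hw'⟩
      obtain ⟨d1, d2, d3⟩ := dec_enc3 x r v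
      unfold tV tst at hw'
      simp only [d1, Bool.and_eq_true, decide_eq_true_eq] at hw'
      have h2 : L x = true := (hL x).2 ⟨w', hw'.1.1, hw'.2⟩
      rw [hx] at h2
      cases h2
    rw [hset, Set.ncard_empty]
    exact dvd_zero p

end Pool.Agent.LD
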