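import Pool.Agent.Work.MP_46935e_lc.LD.Iso
import Pool.Agent.Work.MP_46935e_lc.LD.Chain
import Pool.Agent.Work.MP_46935e_lc.RO.PairNPRel
import Pool.Agent.Work.PT.Auto

/-!
# Random weights from strings
-/

set_option autoImplicit false

open Finset

noncomputable section

namespace Pool.Agent.LD

open Pool.Agent.RO Pool.Agent.PT Pool.Agent.Work.MP_46935e_lc

/-- Number of bits of a weight. -/
def wK (M : ℕ) : ℕ := Nat.log 2 (8 * M) - 1

/-- The weight coded by a string. -/
def vl (M : ℕ) (u : Str) : ℕ :=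
  @List.idxOf (List Bool) instBEqOfDecidableEq u (allStr (Nat.log 2 (8 * M)))

lemma vl_eq (M : ℕ) (u : Str) : vl M u = (allStr (Nat.log 2 (8 * M))).idxOf u := by
  unfold vl
  congr 1
  exact lawful_beq_subsingleton _ _

/-- The weight of the string `w` for the random string `r`. -/
def wS (M : ℕ) (r w : Str) : ℕ :=
  ((List.range M).map (fun i => if (w ++ [true]).getD i false = true then
    vl M ((r.drop (i * (8 * M))).take (wK M)) else 0)).sum

theorem ptf_wS : PTF (fun p : ℕ × (Str × Str) => wS p.1 p.2.1 p.2.2) := by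
  have h0 : PTF (fun q : (ℕ × (Str × Str)) × ℕ => 8 * q.1.1) := by fun_prop
  have h1 : PTF (fun q : (ℕ × (Str × Str)) × ℕ => allStr (Nat.log 2 (8 * q.1.1))) :=
    ptf_allStr_log.comp h0
  have h2 : PTF (fun q : (ℕ × (Str × Str)) × ℕ => wK q.1.1) := by
    unfold wK
    exact (ptf_log.comp h0).sub (PTF.const 1)
  have h3 : PTF (fun q : (ℕ × (Str × Str)) × ℕ =>
      vl q.1.1 ((q.1.2.1.drop (q.2 * (8 * q.1.1))).take (wK q.1.1))) := by
    unfold vl
    have h4 : PTF (fun q : (ℕ × (Str × Str)) × ℕ => q.1.2.1.drop (q.2 * (8 * q.1.1))) := by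
      fun_prop
    exact PTF.idxOf (PTF.take h4 h2) h1
  unfold wS
  refine PTF.sum (PTF.map (g := fun q : (ℕ × (Str × Str)) × ℕ =>
    if (q.1.2.2 ++ [true]).getD q.2 false = true then
      vl q.1.1 ((q.1.2.1.drop (q.2 * (8 * q.1.1))).take (wK q.1.1)) else 0) (by fun_prop) ?_)
  exact PTF.ite (by fun_prop) h3 (PTF.const 0)

lemma lt_two_pow_wK {M : ℕ} (hM : 1 ≤ M) : 2 * M < 2 ^ wK M ∧ wK M < Nat.log 2 (8 * M) ∧
    wK M ≤ 8 * M := by
  have h1 : 3 ≤ Nat.log 2 (8 * M) := by
    have : Nat.log 2 (2 ^ 3) ≤ Nat.log 2 (8 * M) := Nat.log_mono_right (by omega)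
    rwa [Nat.log_pow (by norm_num)] at this
  have h2 : 8 * M < 2 ^ (Nat.log 2 (8 * M) + 1) := Nat.lt_pow_succ_log_self (by norm_num) _
  have h3 : Nat.log 2 (8 * M) ≤ 8 * M := Nat.log_le_self _ _
  have e : Nat.log 2 (8 * M) = wK M + 1 := by unfold wK; omega
  refine ⟨?_, by omega, by omega⟩
  rw [e, pow_succ, pow_succ] at h2
  omega

lemma vl_inj {M : ℕ} {u u' : Str} (hM : 1 ≤ M) (hu : u.length = wK M) (hu' : u'.length = wK M)
    (h : vl M u = vl M u') : u = u' := by
  have h1 := (lt_two_pow_wK hM).2.1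
  have m1 : u ∈ allStr (Nat.log 2 (8 * M)) := mem_allStr.2 (by omega)
  have m2 : u' ∈ allStr (Nat.log 2 (8 * M)) := mem_allStr.2 (by omega)
  rw [vl_eq, vl_eq] at h
  exact (List.idxOf_inj m1).1 h

lemma vl_le (M : ℕ) (u : Str) : vl M u ≤ 8 * M := by
  rw [vl_eq]
  refine List.idxOf_le_length.trans ?_
  have := length_allStr_log (8 * M)
  omega

lemma wS_le (M : ℕ) (r w : Str) : wS M r w ≤ 8 * M ^ 2 := by
  unfold wS
  refine (List.sum_le_card_nsmul _ (8 * M) ?_).trans ?_
  · intro x hx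
    obtain ⟨i, -, rfl⟩ := List.mem_map.1 hx
    split_ifs
    · exact vl_le M _
    · exact Nat.zero_le _
  · rw [List.length_map, List.length_range, smul_eq_mul]
    exact le_of_eq (by ring)

/-! ### Blocks -/

lemma take_drop_flatten {K : ℕ} (k : ℕ) (hk : k ≤ K) (L : List Str) :
    (∀ l ∈ L, l.length = K) → ∀ i, i < L.length →
      ((L.flatten).drop (i * K)).take k = (L.getD i []).take k := by
  induction L with
  | nil => intro _ i hi; simp at hi
  | cons l L ih =>
    intro h i hi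
    have hl : l.length = K := h l List.mem_cons_self
    rw [List.flatten_cons]
    cases i with
    | zero =>
      rw [zero_mul, List.drop_zero, List.take_append_of_le_length (by omega)]
      rfl
    | succ i =>
      have e : (i + 1) * K = l.length + i * K := by rw [hl]; ring
      rw [e, List.drop_length_add_append]
      exact ih (fun l' hl' => h l' (List.mem_cons_of_mem _ hl')) i
        (by rw [List.length_cons] at hi; omega)

/-- The string coded by blocks. -/
def strOf {M K : ℕ} (ρ : Fin M → (Fin K → Bool)) : Str :=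
  (List.ofFn fun i => List.ofFn (ρ i)).flatten

lemma length_strOf {M K : ℕ} (ρ : Fin M → (Fin K → Bool)) : (strOf ρ).length = M * K := by
  unfold strOf
  rw [List.length_flatten]
  have : (List.map List.length (List.ofFn fun i => List.ofFn (ρ i))) = List.replicate M K := by
    rw [List.map_ofFn]
    refine List.eq_replicate_iff.2 ⟨List.length_ofFn, fun b hb => ?_⟩
    rw [List.mem_ofFn] at hb
    obtain ⟨i, rfl⟩ := hb
    simp
  rw [this, List.sum_replicate, smul_eq_mul]

lemma blk_strOf {M K : ℕ} (ρ : Fin M → (Fin K → Bool)) (k : ℕ) (hk : k ≤ K) (i : Fin M) :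
    ((strOf ρ).drop (i * K)).take k = (List.ofFn (ρ i)).take k := by
  unfold strOf
  rw [take_drop_flatten k hk _ (fun l hl => ?_) i (by simp)]
  · rw [List.getD_eq_getElem _ _ (by simp), List.getElem_ofFn]
  · rw [List.mem_ofFn] at hl
    obtain ⟨j, rfl⟩ := hl
    simp

lemma strOf_inj {M K : ℕ} {ρ ρ' : Fin M → (Fin K → Bool)} (h : strOf ρ = strOf ρ') : ρ = ρ' := by
  funext i
  have h1 := blk_strOf ρ K le_rfl i
  have h2 := blk_strOf ρ' K le_rfl i
  rw [h, h2] at h1
  have e1 : (List.ofFn (ρ i)).take K = List.ofFn (ρ i) := List.take_of_length_le (by simp)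
  have e2 : (List.ofFn (ρ' i)).take K = List.ofFn (ρ' i) := List.take_of_length_le (by simp)
  rw [e1, e2] at h1
  exact (List.ofFn_injective h1).symm

/-- Values of blocks. -/
def vv (M : ℕ) (ω : Fin (8 * M) → Bool) : ℕ := vl M ((List.ofFn ω).take (wK M))

/-- The characteristic function of a string. -/
def chi (M : ℕ) (w : Str) : Fin M → Bool := fun i => (w ++ [true]).getD i false

lemma sum_map_range (f : ℕ → ℕ) (n : ℕ) :
    ((List.range n).map f).sum = ∑ i ∈ Finset.range n, f i := by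
  induction n with
  | zero => simp
  | succ n ih => rw [List.range_succ, List.map_append, List.sum_append, ih,
      Finset.sum_range_succ]; simp

lemma wS_strOf {M : ℕ} (hM : 1 ≤ M) (ρ : Fin M → (Fin (8 * M) → Bool)) (w : Str) :
    wS M (strOf ρ) w = wgt (vv M) ρ (chi M w) := by
  unfold wS wgt
  rw [sum_map_range, Finset.sum_range]
  refine Finset.sum_congr rfl fun i _ => ?_
  rw [blk_strOf ρ _ (lt_two_pow_wK hM).2.2 i]
  rfl

lemma chi_inj {M : ℕ} {w w' : Str} (hw : w.length < M) (hw' : w'.length < M)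
    (h : chi M w = chi M w') : w = w' := by
  have key : ∀ {w w' : Str}, w'.length < M → chi M w = chi M w' → ¬ w.length < w'.length := by
    intro w w' hw' h hlt
    have h1 := congrFun h ⟨w'.length, hw'⟩
    unfold chi at h1
    rw [List.getD_eq_default _ _ (by simp; omega),
      List.getD_eq_getElem _ _ (by simp)] at h1
    simp at h1
  have h1 := key hw' h
  have h2 := key hw h.symm
  have hlen : w.length = w'.length := by omega
  refine List.ext_getElem hlen fun i hi hi' => ?_
  have h3 := congrFun h ⟨i, by omega⟩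
  unfold chi at h3
  rw [List.getD_eq_getElem _ _ (by simp; omega), List.getD_eq_getElem _ _ (by simp; omega),
    List.getElem_append_left hi, List.getElem_append_left hi'] at h3
  exact h3

open Classical in
lemma fiber_le {M : ℕ} (hM : 1 ≤ M) (c : ℕ) :
    #{ω : Fin (8 * M) → Bool | vv M ω = c} ≤ 2 ^ (8 * M - wK M) := by
  have hk := (lt_two_pow_wK hM).2.2
  have e : Fintype.card (Fin (8 * M - wK M) → Bool) = 2 ^ (8 * M - wK M) := by simp
  rw [← e, ← Finset.card_univ]
  refine Finset.card_le_card_of_injOn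
    (fun ω (j : Fin (8 * M - wK M)) => ω ⟨wK M + j, by omega⟩)
    (fun _ _ => Finset.mem_coe.2 (mem_univ _)) (fun ω hω ω' hω' h => ?_)
  have h1 := (Finset.mem_filter.1 (Finset.mem_coe.1 hω)).2
  have h2 := (Finset.mem_filter.1 (Finset.mem_coe.1 hω')).2
  have h3 : (List.ofFn ω).take (wK M) = (List.ofFn ω').take (wK M) :=
    vl_inj hM (by simp; omega) (by simp; omega) (h1.trans h2.symm)
  funext i
  by_cases hi : (i : ℕ) < wK M
  · have h4 : ((List.ofFn ω).take (wK M))[(i : ℕ)]? = ((List.ofFn ω').take (wK M))[(i : ℕ)]? := by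
      rw [h3]
    rw [List.getElem?_take_of_lt hi, List.getElem?_take_of_lt hi] at h4
    simpa using h4
  · have h4 := congrFun h ⟨i - wK M, by omega⟩
    simp only at h4
    have e2 : wK M + (i - wK M) = (i : ℕ) := by omega
    simpa only [e2] using h4

open Classical in
/-- At least half of the random strings isolate an element. -/
theorem iso_strings {M : ℕ} (hM : 1 ≤ M) (S : Finset (Fin M → Bool)) (hS : S.Nonempty) :
    2 ^ (8 * M ^ 2) ≤ 2 * #{ρ : Fin M → (Fin (8 * M) → Bool) |
      ∃ β ∈ S, ∀ γ ∈ S, γ ≠ β → wgt (vv M) ρ β < wgt (vv M) ρ γ} := by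
  have h1 := isolation (vv M) (2 ^ (8 * M - wK M)) (fun c => fiber_le hM c) S hS
  set g := #{ρ : Fin M → (Fin (8 * M) → Bool) |
      ∃ β ∈ S, ∀ γ ∈ S, γ ≠ β → wgt (vv M) ρ β < wgt (vv M) ρ γ} with hg
  have e1 : Fintype.card (Fin (8 * M) → Bool) = 2 ^ (8 * M) := by simp
  rw [e1] at h1
  obtain ⟨h2, -, h3⟩ := lt_two_pow_wK hM
  have e2 : (2 ^ (8 * M)) ^ M = 2 ^ (8 * M ^ 2) := by
    rw [← pow_mul]
    congr 1
    ring
  have e3 : 2 * (M * (2 ^ (8 * M - wK M) * (2 ^ (8 * M)) ^ (M - 1))) ≤ (2 ^ (8 * M)) ^ M := by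
    calc 2 * (M * (2 ^ (8 * M - wK M) * (2 ^ (8 * M)) ^ (M - 1))) =
          (2 * M) * 2 ^ (8 * M - wK M) * (2 ^ (8 * M)) ^ (M - 1) := by ring
      _ ≤ 2 ^ wK M * 2 ^ (8 * M - wK M) * (2 ^ (8 * M)) ^ (M - 1) :=
          Nat.mul_le_mul_right _ (Nat.mul_le_mul_right _ h2.le)
      _ = (2 ^ (8 * M)) ^ M := by
          rw [← pow_add, Nat.add_sub_cancel' h3, ← pow_succ', Nat.sub_add_cancel hM]
  rw [e2] at h1 e3
  omega

end Pool.Agent.LD
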